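import Mathlib

/-!
# Angles of Euclidean triangles, in terms of side lengths

JOB BT-4. Write `b = (r^2+σ^2-r'^2)/(2rσ)`, `c = (r'^2+σ^2-r^2)/(2r'σ)`, `β = arccos b`,
`γ = arccos c`, `K = 4r^2σ^2-(r^2+σ^2-r'^2)^2 = 4r'^2σ^2-(r'^2+σ^2-r^2)^2 ≥ 0` (Heron:
`K = (σ^2-(r-r')^2)((r+r')^2-σ^2)`). So `b, c ∈ [-1,1]`, `1-b^2 = K/(4r^2σ^2)`,
`1-c^2 = K/(4r'^2σ^2)`.
`angle_defect`, first part: `β ≤ π - γ` iff `b ≥ -c` (`arccos` is antitone, `π - arccos c =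
arccos (-c)`), and `b + c = (r+r')(σ^2-(r-r')^2)/(2rr'σ) ≥ 0`.
Second part: with `α = π - β - γ`: `cos α = -cos(β+γ) = sin β sin γ - b c`, and
`sin β sin γ = sqrt(1-b^2) sqrt(1-c^2) = K/(4rr'σ^2)`, so
`cos α = (r^2+r'^2-σ^2)/(2rr')`, and `(σ^2-(r'-r)^2)/(rr') = 2 - 2 cos α ≤ α^2` by
`Real.one_sub_sq_div_two_le_cos`.
`angle_sum_ge`: `arccos p + arccos q ≥ π` iff `arccos q ≥ π - arccos p = arccos (-p)` iff
`q ≤ -p`, and `p + q = (2r'^2+2σ^2-r^2-r''^2)/(2r'σ) ≤ 0`.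
-/

open Real

namespace Pool.Agent.H25.Bet

/-- Angles of a Euclidean triangle with sides `r, r', σ`: the angles `β, γ` at the ends of the side
`σ` satisfy `β + γ ≤ π`, and the remaining angle is at least the chord. -/
lemma angle_defect {r r' σ : ℝ} (hr : 0 < r) (hr' : 0 < r') (hσ : 0 < σ) (h1 : |r' - r| ≤ σ)
    (h2 : σ ≤ r + r') :
    0 ≤ π - arccos ((r ^ 2 + σ ^ 2 - r' ^ 2) / (2 * r * σ))
        - arccos ((r' ^ 2 + σ ^ 2 - r ^ 2) / (2 * r' * σ)) ∧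
    (σ ^ 2 - (r' - r) ^ 2) / (r * r') ≤
      (π - arccos ((r ^ 2 + σ ^ 2 - r' ^ 2) / (2 * r * σ))
        - arccos ((r' ^ 2 + σ ^ 2 - r ^ 2) / (2 * r' * σ))) ^ 2 := by
  obtain ⟨h3, h4⟩ := abs_le.mp h1
  set b := (r ^ 2 + σ ^ 2 - r' ^ 2) / (2 * r * σ) with hb
  set c := (r' ^ 2 + σ ^ 2 - r ^ 2) / (2 * r' * σ) with hc
  have hb1 : b ≤ 1 := by
    rw [hb, div_le_one (by positivity)]
    nlinarith [mul_nonneg (by linarith : 0 ≤ r' - (r - σ)) (by linarith : 0 ≤ r' + (r - σ))]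
  have hb2 : -1 ≤ b := by
    rw [hb, le_div_iff₀ (by positivity)]
    nlinarith [mul_nonneg (by linarith : 0 ≤ (r + σ) - r') (by linarith : 0 ≤ (r + σ) + r')]
  have hc1 : c ≤ 1 := by
    rw [hc, div_le_one (by positivity)]
    nlinarith [mul_nonneg (by linarith : 0 ≤ r - (r' - σ)) (by linarith : 0 ≤ r + (r' - σ))]
  have hc2 : -1 ≤ c := by
    rw [hc, le_div_iff₀ (by positivity)]
    nlinarith [mul_nonneg (by linarith : 0 ≤ (r' + σ) - r) (by linarith : 0 ≤ (r' + σ) + r)]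
  have hbc : b + c = (r + r') * (σ ^ 2 - (r' - r) ^ 2) / (2 * r * r' * σ) := by
    rw [hb, hc]; field_simp; ring
  have hs0 : 0 ≤ σ ^ 2 - (r' - r) ^ 2 := by nlinarith
  have hbc0 : 0 ≤ b + c := by
    rw [hbc]; positivity
  have h5 : arccos b ≤ π - arccos c := by
    rw [← arccos_neg]
    exact arccos_le_arccos (by linarith)
  refine ⟨by linarith, ?_⟩
  have hK : 0 ≤ 4 * r ^ 2 * σ ^ 2 - (r ^ 2 + σ ^ 2 - r' ^ 2) ^ 2 := by
    have : 4 * r ^ 2 * σ ^ 2 - (r ^ 2 + σ ^ 2 - r' ^ 2) ^ 2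
        = (σ ^ 2 - (r' - r) ^ 2) * ((r + r') ^ 2 - σ ^ 2) := by ring
    rw [this]
    apply mul_nonneg hs0
    nlinarith
  have hsin : sin (arccos b) * sin (arccos c)
      = (4 * r ^ 2 * σ ^ 2 - (r ^ 2 + σ ^ 2 - r' ^ 2) ^ 2) / (4 * r * r' * σ ^ 2) := by
    rw [sin_arccos, sin_arccos, ← Real.sqrt_mul (by nlinarith)]
    rw [show (1 - b ^ 2) * (1 - c ^ 2)
      = ((4 * r ^ 2 * σ ^ 2 - (r ^ 2 + σ ^ 2 - r' ^ 2) ^ 2) / (4 * r * r' * σ ^ 2)) ^ 2 by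
        rw [hb, hc]; field_simp; ring]
    exact Real.sqrt_sq (by positivity)
  have hcos : cos (π - arccos b - arccos c) = (r ^ 2 + r' ^ 2 - σ ^ 2) / (2 * r * r') := by
    rw [show π - arccos b - arccos c = π - (arccos b + arccos c) by ring, cos_pi_sub, cos_add,
      hsin, cos_arccos hb2 hb1, cos_arccos hc2 hc1, hb, hc]
    field_simp
    ring
  have h6 := Real.one_sub_sq_div_two_le_cos (x := π - arccos b - arccos c)
  rw [hcos] at h6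
  have h7 : (σ ^ 2 - (r' - r) ^ 2) / (r * r') = 2 - 2 * ((r ^ 2 + r' ^ 2 - σ ^ 2) / (2 * r * r')) := by
    field_simp; ring
  rw [h7]
  linarith

/-- Consecutive angles at a division point sum to at least `π`. -/
lemma angle_sum_ge {r r' r'' σ : ℝ} (hr' : 0 < r') (hσ : 0 < σ)
    (h : r' ^ 2 ≤ (r ^ 2 + r'' ^ 2) / 2 - σ ^ 2) :
    π ≤ arccos ((r' ^ 2 + σ ^ 2 - r ^ 2) / (2 * r' * σ)) +
      arccos ((r' ^ 2 + σ ^ 2 - r'' ^ 2) / (2 * r' * σ)) := by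
  have h1 : π - arccos ((r' ^ 2 + σ ^ 2 - r ^ 2) / (2 * r' * σ))
      ≤ arccos ((r' ^ 2 + σ ^ 2 - r'' ^ 2) / (2 * r' * σ)) := by
    rw [← arccos_neg]
    apply arccos_le_arccos
    have h2 : (r' ^ 2 + σ ^ 2 - r'' ^ 2) / (2 * r' * σ) + (r' ^ 2 + σ ^ 2 - r ^ 2) / (2 * r' * σ)
        ≤ 0 := by
      rw [← add_div]
      apply div_nonpos_of_nonpos_of_nonneg
      · linarith
      · positivity
    linarith
  linarith

end Pool.Agent.H25.Bet
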