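import Mathlib

/-!
# Injective chains

JOB BT-3. Proof of `exists_inj_chain`: strong induction on `n`. If `g` is injective on `{0..n}` take
`m = n`, `p = g`. Otherwise `g i = g j` with `i < j ≤ n`; apply the induction hypothesis to the
chain `k ↦ if k ≤ i then g k else g (k + (j - i))` of length `n - (j - i)`.
-/

namespace Pool.Agent.H25.Bet

/-- Every chain contains an injective chain with the same ends. -/
lemma exists_inj_chain {α : Type*} (R : α → α → Prop) (V : α → Prop) (n : ℕ) (g : ℕ → α)
    (hR : ∀ i < n, R (g i) (g (i + 1))) (hV : ∀ i ≤ n, V (g i)) :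
    ∃ m ≤ n, ∃ p : ℕ → α, p 0 = g 0 ∧ p m = g n ∧ (∀ i < m, R (p i) (p (i + 1))) ∧
      (∀ i ≤ m, V (p i)) ∧ ∀ i ≤ m, ∀ j ≤ m, p i = p j → i = j := by
  induction n using Nat.strong_induction_on generalizing g with
  | _ n ih =>
    by_cases hinj : ∀ i ≤ n, ∀ j ≤ n, g i = g j → i = j
    · exact ⟨n, le_rfl, g, rfl, rfl, hR, hV, hinj⟩
    · obtain ⟨i, j, hij, hj, he⟩ : ∃ i j, i < j ∧ j ≤ n ∧ g i = g j := by
        push Not at hinj
        obtain ⟨i, hi, j, hj, he, hne⟩ := hinj
        rcases lt_or_gt_of_ne hne with h | h
        · exact ⟨i, j, h, hj, he⟩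
        · exact ⟨j, i, h, hi, he.symm⟩
      have h1 := ih (n - (j - i)) (by omega) (fun k => if k ≤ i then g k else g (k + (j - i))) (by
        intro k hk
        show R (if k ≤ i then g k else g (k + (j - i))) (if k + 1 ≤ i then g (k + 1) else g (k + 1 + (j - i)))
        by_cases h2 : k + 1 ≤ i
        · rw [if_pos h2, if_pos (by omega)]
          exact hR k (by omega)
        · rw [if_neg h2]
          by_cases h3 : k ≤ i
          · obtain rfl : k = i := by omega
            rw [if_pos le_rfl, he]
            have h4 : k + 1 + (j - k) = j + 1 := by omega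
            rw [h4]
            exact hR j (by omega)
          · rw [if_neg h3]
            have h4 : k + 1 + (j - i) = k + (j - i) + 1 := by omega
            rw [h4]
            exact hR _ (by omega)) (by
        intro k hk
        show V (if k ≤ i then g k else g (k + (j - i)))
        by_cases h3 : k ≤ i
        · rw [if_pos h3]
          exact hV k (by omega)
        · rw [if_neg h3]
          exact hV _ (by omega))
      obtain ⟨m, hm, p, hp0, hpm, hp1, hp2, hp3⟩ := h1
      refine ⟨m, by omega, p, ?_, ?_, hp1, hp2, hp3⟩
      · rw [hp0, if_pos (Nat.zero_le i)]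
      · rw [hpm]
        by_cases h3 : n - (j - i) ≤ i
        · rw [if_pos h3]
          have h4 : n - (j - i) = i := by omega
          have h5 : j = n := by omega
          rw [h4, he, h5]
        · rw [if_neg h3]
          congr 1
          omega

end Pool.Agent.H25.Bet
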