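import Mathlib

/-!
# Energy of two-dimensional flows

JOB BT-8. Proof of `flow_bound`. Let `A` be the finite set of all `p t i` (`t ≤ N`, `i ≤ n t`). For
`γ ∈ F`, `g ∈ G` put `θ γ g = ∑ t ∈ Icc 1 N, (1/t) * #{i < n t | p t i = g ∧ (p t i)⁻¹ * p t (i+1)
= γ}`; the cardinality is `0` or `1` by injectivity. Telescoping (`hE.add`, `E a a = 0`):
`E (p t 0) (p t (n t)) = ∑ i < n t, E (p t i) (p t (i+1)) = ∑ γ ∈ F, ∑ g ∈ A, (indicator) E g (gγ)`,
so the sum equals `∑ γ ∈ F, ∑ g ∈ A, θ γ g • E g (g*γ)` with norm at most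
`∑ γ ∈ F, K γ * sqrt (∑ g ∈ A, θ γ g^2)`. For fixed `γ, g` at most `2D+1` values of `t` contribute
(`|lev g - t| ≤ D`, integers in an interval of length `2D`), so by Cauchy-Schwarz
`θ γ g^2 ≤ (2D+1) ∑ t, (1/t^2) #{i < n t | p t i = g ∧ ...}`. Sum over `g`:
`∑ g, θ γ g^2 ≤ (2D+1) ∑ t, (1/t^2) * n t ≤ (2D+1) C ∑ t, 1/t`. So
`M = (∑ γ ∈ F, K γ)^2 (2D+1) C` works.
-/

open Set

namespace Pool.Agent.H25.Bet

/-- A cocycle `E(g,h)` with values in a normed space, such that the energy of a flow along edges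
`(g, g γ)` bounds its norm. -/
structure Flowy {G H : Type*} [Group G] [NormedAddCommGroup H] [NormedSpace ℝ H]
    (E : G → G → H) : Prop where
  add : ∀ a b c, E a b + E b c = E a c
  bes : ∀ γ : G, ∃ K : ℝ, 0 ≤ K ∧ ∀ (A : Finset G) (θ : G → ℝ),
    ‖∑ g ∈ A, θ g • E g (g * γ)‖ ≤ K * Real.sqrt (∑ g ∈ A, θ g ^ 2)

/-- The number of natural numbers in an interval of length `2D`. -/
theorem flow_card (T : Finset ℕ) (x D : ℝ) (hD : 0 ≤ D) (h : ∀ t ∈ T, |x - t| ≤ D) :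
    (T.card : ℝ) ≤ 2 * D + 1 := by
  rcases T.eq_empty_or_nonempty with rfl | hT
  · simp only [Finset.card_empty, Nat.cast_zero]
    positivity
  · have h1 := h _ (T.min'_mem hT)
    have h2 := h _ (T.max'_mem hT)
    have h3 : T ⊆ Finset.Icc (T.min' hT) (T.max' hT) := fun t ht =>
      Finset.mem_Icc.2 ⟨T.min'_le t ht, T.le_max' t ht⟩
    have h4 := Finset.card_le_card h3
    rw [Nat.card_Icc] at h4
    have h5 : T.min' hT ≤ T.max' hT := T.min'_le _ (T.max'_mem hT)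
    have h6 : (T.card : ℝ) ≤ (T.max' hT : ℝ) + 1 - (T.min' hT : ℝ) := by
      have h7 : T.card + T.min' hT ≤ T.max' hT + 1 := by omega
      have h8 : ((T.card + T.min' hT : ℕ) : ℝ) ≤ ((T.max' hT + 1 : ℕ) : ℝ) := by exact_mod_cast h7
      push_cast at h8
      linarith
    rw [abs_le] at h1 h2
    linarith [h1.1, h1.2, h2.1, h2.2]

/-- Telescoping. -/
theorem flow_tel {G H : Type*} [Group G] [NormedAddCommGroup H] [NormedSpace ℝ H]
    {E : G → G → H} (hE : Flowy E) (q : ℕ → G) (k : ℕ) :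
    E (q 0) (q k) = ∑ i ∈ Finset.range k, E (q i) (q (i + 1)) := by
  induction k with
  | zero =>
    have h := hE.add (q 0) (q 0) (q 0)
    simpa using h
  | succ k ih => rw [Finset.sum_range_succ, ← ih, hE.add]

/-- One edge label: the energy bound. -/
theorem flow_one {G H : Type*} [Group G] [NormedAddCommGroup H] [NormedSpace ℝ H]
    {E : G → G → H} {γ : G} {K : ℝ} (hK : 0 ≤ K)
    (hb : ∀ (A : Finset G) (θ : G → ℝ), ‖∑ g ∈ A, θ g • E g (g * γ)‖ ≤ K * Real.sqrt (∑ g ∈ A, θ g ^ 2))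
    {ι : Type*} (I : Finset ι) (v : ι → G) (c : ι → ℝ) {R : ℝ} (_hR : 0 ≤ R)
    (hcard : ∀ g, ∀ J ⊆ I, (∀ x ∈ J, v x = g) → (J.card : ℝ) ≤ R) :
    ‖∑ x ∈ I, c x • E (v x) (v x * γ)‖ ≤ K * Real.sqrt (R * ∑ x ∈ I, c x ^ 2) := by
  classical
  have h1 : ∑ x ∈ I, c x • E (v x) (v x * γ) =
      ∑ g ∈ I.image v, (∑ x ∈ I with v x = g, c x) • E g (g * γ) := by
    rw [← Finset.sum_fiberwise_of_maps_to (s := I) (t := I.image v) (g := v)
      (fun x hx => Finset.mem_image_of_mem v hx)]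
    refine Finset.sum_congr rfl fun g _ => ?_
    rw [Finset.sum_smul]
    refine Finset.sum_congr rfl fun x hx => ?_
    rw [(Finset.mem_filter.1 hx).2]
  rw [h1]
  refine (hb _ _).trans (mul_le_mul_of_nonneg_left (Real.sqrt_le_sqrt ?_) hK)
  have h2 : ∑ x ∈ I, c x ^ 2 = ∑ g ∈ I.image v, ∑ x ∈ I with v x = g, c x ^ 2 :=
    (Finset.sum_fiberwise_of_maps_to (s := I) (t := I.image v) (g := v)
      (fun x hx => Finset.mem_image_of_mem v hx) _).symm
  rw [h2, Finset.mul_sum]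
  refine Finset.sum_le_sum fun g _ => ?_
  have h3 := sq_sum_le_card_mul_sum_sq (s := I.filter fun x => v x = g) (f := c)
  refine h3.trans (mul_le_mul_of_nonneg_right ?_ (Finset.sum_nonneg fun x _ => sq_nonneg _))
  exact hcard g _ (Finset.filter_subset _ _) fun x hx => (Finset.mem_filter.1 hx).2

/-- The logarithmic average of differences along injective chains of length `≤ C t` at level `t`
has energy at most `M / log N`. -/
theorem flow_bound {G H : Type*} [Group G] [NormedAddCommGroup H] [NormedSpace ℝ H]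
    {E : G → G → H} (hE : Flowy E) (F : Finset G) (lev : G → ℝ) {D C : ℝ} (hD : 0 ≤ D)
    (hC : 0 ≤ C) :
    ∃ M : ℝ, 0 ≤ M ∧ ∀ (N : ℕ) (n : ℕ → ℕ) (p : ℕ → ℕ → G),
      (∀ t ∈ Finset.Icc 1 N, (∀ i < n t, (p t i)⁻¹ * p t (i + 1) ∈ F) ∧
        (∀ i ≤ n t, |lev (p t i) - t| ≤ D) ∧
        (∀ i ≤ n t, ∀ j ≤ n t, p t i = p t j → i = j) ∧ (n t : ℝ) ≤ C * t) →
      ‖∑ t ∈ Finset.Icc 1 N, (1 / (t : ℝ)) • E (p t 0) (p t (n t))‖ ^ 2 ≤
        M * ∑ t ∈ Finset.Icc 1 N, 1 / (t : ℝ) := by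
  classical
  choose K hK0 hK using hE.bes
  refine ⟨(∑ γ ∈ F, K γ) ^ 2 * ((2 * D + 1) * C), by positivity, ?_⟩
  intro N n p hp
  set S : ℝ := ∑ t ∈ Finset.Icc 1 N, 1 / (t : ℝ) with hS
  have hS0 : 0 ≤ S := Finset.sum_nonneg fun t _ => by positivity
  let I : Finset (Σ _ : ℕ, ℕ) := (Finset.Icc 1 N).sigma fun t => Finset.range (n t)
  let v : (Σ _ : ℕ, ℕ) → G := fun x => p x.1 x.2
  let lab : (Σ _ : ℕ, ℕ) → G := fun x => (p x.1 x.2)⁻¹ * p x.1 (x.2 + 1)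
  let c : (Σ _ : ℕ, ℕ) → ℝ := fun x => 1 / (x.1 : ℝ)
  have hI : ∀ x, x ∈ I ↔ x.1 ∈ Finset.Icc 1 N ∧ x.2 < n x.1 := by
    intro x
    simp only [I, Finset.mem_sigma, Finset.mem_range]
  have h1 : ∑ t ∈ Finset.Icc 1 N, (1 / (t : ℝ)) • E (p t 0) (p t (n t)) =
      ∑ x ∈ I, c x • E (v x) (v x * lab x) := by
    rw [Finset.sum_sigma]
    refine Finset.sum_congr rfl fun t _ => ?_
    rw [flow_tel hE (p t) (n t), Finset.smul_sum]
    refine Finset.sum_congr rfl fun i _ => ?_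
    simp only [v, lab, c, mul_inv_cancel_left]
  have h2 : ∑ x ∈ I, c x • E (v x) (v x * lab x) =
      ∑ γ ∈ F, ∑ x ∈ I with lab x = γ, c x • E (v x) (v x * γ) := by
    rw [← Finset.sum_fiberwise_of_maps_to (s := I) (t := F) (g := lab)
      (fun x hx => (hp x.1 ((hI x).1 hx).1).1 x.2 ((hI x).1 hx).2)]
    refine Finset.sum_congr rfl fun γ _ => Finset.sum_congr rfl fun x hx => ?_
    rw [(Finset.mem_filter.1 hx).2]
  have hsum : ∑ x ∈ I, c x ^ 2 ≤ C * S := by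
    rw [Finset.sum_sigma, hS, Finset.mul_sum]
    refine Finset.sum_le_sum fun t ht => ?_
    have ht0 : (0 : ℝ) < t := by exact_mod_cast (Finset.mem_Icc.1 ht).1
    simp only [c, Finset.sum_const, Finset.card_range, nsmul_eq_mul]
    have h3 := (hp t ht).2.2.2
    calc (n t : ℝ) * (1 / (t : ℝ)) ^ 2 ≤ (C * t) * (1 / (t : ℝ)) ^ 2 :=
          mul_le_mul_of_nonneg_right h3 (by positivity)
      _ = C * (1 / (t : ℝ)) := by field_simp
  have hcard : ∀ g, ∀ J ⊆ I, (∀ x ∈ J, v x = g) → (J.card : ℝ) ≤ 2 * D + 1 := by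
    intro g J hJ hJg
    have h3 : (J.image Sigma.fst).card = J.card := by
      refine Finset.card_image_of_injOn ?_
      rintro ⟨t, i⟩ hx ⟨t', j⟩ hy hxy
      obtain rfl : t = t' := hxy
      have hx' := (hI _).1 (hJ hx)
      have hy' := (hI _).1 (hJ hy)
      have h4 : p t i = p t j := (hJg _ hx).trans (hJg _ hy).symm
      have h5 : i = j := (hp t hx'.1).2.2.1 i (le_of_lt hx'.2) j (le_of_lt hy'.2) h4
      rw [h5]
    rw [← h3]
    refine flow_card _ (lev g) D hD fun t ht => ?_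
    obtain ⟨x, hx, rfl⟩ := Finset.mem_image.1 ht
    have hx' := (hI _).1 (hJ hx)
    have h6 := (hp x.1 hx'.1).2.1 x.2 (le_of_lt hx'.2)
    rw [← hJg x hx]
    exact h6
  have h7 : ∀ γ ∈ F, ‖∑ x ∈ I with lab x = γ, c x • E (v x) (v x * γ)‖ ≤
      K γ * Real.sqrt ((2 * D + 1) * (C * S)) := by
    intro γ _
    refine (flow_one (hK0 γ) (hK γ) (I.filter fun x => lab x = γ) v c (R := 2 * D + 1) (by positivity)
      (fun g J hJ => hcard g J (hJ.trans (Finset.filter_subset _ _)))).trans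
      (mul_le_mul_of_nonneg_left (Real.sqrt_le_sqrt ?_) (hK0 γ))
    refine mul_le_mul_of_nonneg_left (le_trans ?_ hsum) (by positivity)
    exact Finset.sum_le_sum_of_subset_of_nonneg (Finset.filter_subset _ _) fun x _ _ => sq_nonneg _
  have h8 : ‖∑ t ∈ Finset.Icc 1 N, (1 / (t : ℝ)) • E (p t 0) (p t (n t))‖ ≤
      (∑ γ ∈ F, K γ) * Real.sqrt ((2 * D + 1) * (C * S)) := by
    rw [h1, h2, Finset.sum_mul]
    exact (norm_sum_le _ _).trans (Finset.sum_le_sum h7)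
  calc ‖∑ t ∈ Finset.Icc 1 N, (1 / (t : ℝ)) • E (p t 0) (p t (n t))‖ ^ 2
      ≤ ((∑ γ ∈ F, K γ) * Real.sqrt ((2 * D + 1) * (C * S))) ^ 2 :=
        pow_le_pow_left₀ (norm_nonneg _) h8 2
    _ = (∑ γ ∈ F, K γ) ^ 2 * ((2 * D + 1) * C) * S := by
        rw [mul_pow, Real.sq_sqrt (by positivity)]
        ring

end Pool.Agent.H25.Bet
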