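import Pool.Agent.H25.Bet.Curve
import Pool.Agent.H25.Bet.ChainB
import Pool.Agent.H25.Bet.Flow

/-!
# Logarithmic averages along segments

JOB BT-9. `Lam_tendsto`: `Real.tendsto_sum_range_one_div_nat_succ_atTop`. `lavg_chain`: let
`F = {γ | dist x (γ•x) ≤ ρ}` (finite, `finite_near x x ρ`), `lev g = dist x (g•x)`. Apply
`exists_inj_chain` for each `t` with `R g g' := g⁻¹ * g' ∈ F` (`dist (g•x) (g'•x) = dist x
((g⁻¹*g')•x)`) and `V g := |dist x (g•x) - t| ≤ ρ`, then `flow_bound hE F lev` with `D = max ρ 0`;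
finally `‖(1/Λ) • S‖^2 = ‖S‖^2/Λ^2 ≤ M Λ / Λ^2`.
-/

open Set Metric

namespace Pool.Agent.H25.Bet

open Pool.Agent.H29

/-- the harmonic numbers -/
noncomputable def Lam (N : ℕ) : ℝ := ∑ t ∈ Finset.Icc 1 N, 1 / (t : ℝ)

lemma Lam_eq (N : ℕ) : Lam N = ∑ i ∈ Finset.range N, 1 / ((i : ℝ) + 1) := by
  unfold Lam
  induction N with
  | zero => simp
  | succ N ih =>
    rw [Finset.sum_Icc_succ_top (by omega), ih, Finset.sum_range_succ]
    push_cast
    rfl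

lemma Lam_tendsto : Filter.Tendsto Lam Filter.atTop Filter.atTop := by
  have h := Real.tendsto_sum_range_one_div_nat_succ_atTop
  refine h.congr ?_
  intro N
  exact (Lam_eq N).symm

lemma Lam_pos {N : ℕ} (h : 1 ≤ N) : 0 < Lam N := by
  unfold Lam
  apply Finset.sum_pos
  · intro t ht
    have : 1 ≤ t := (Finset.mem_Icc.mp ht).1
    positivity
  · exact ⟨1, Finset.mem_Icc.mpr ⟨le_rfl, h⟩⟩

variable {G X H : Type*} [Group G] [MetricSpace X] [IsCAT0 X] [MulAction G X]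
  [IsIsometricSMul G X] [NormedAddCommGroup H] [NormedSpace ℝ H]
  [ProperSpace X] [ProperlyDiscontinuousSMul G X] {E : G → G → H}

/-- the general comparison: chains of points on the spheres -/
lemma lavg_chain (hE : Flowy E) (x : X) {C : ℝ} (hC : 0 ≤ C) (ρ : ℝ) :
    ∃ M : ℝ, 0 ≤ M ∧ ∀ (N : ℕ) (a b : ℕ → G),
    1 ≤ N → (∀ t ∈ Finset.Icc 1 N, ∃ n : ℕ, (n : ℝ) ≤ C * t ∧ ∃ w : ℕ → G, w 0 = a t ∧ w n = b t ∧
      (∀ i < n, dist (w i • x) (w (i + 1) • x) ≤ ρ) ∧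
      ∀ i ≤ n, |dist x (w i • x) - t| ≤ ρ) →
    ‖(1 / Lam N) • ∑ t ∈ Finset.Icc 1 N, (1 / (t : ℝ)) • E (a t) (b t)‖ ^ 2 ≤ M / Lam N := by
  classical
  have hfin : {γ : G | dist x (γ • x) ≤ ρ}.Finite := finite_near x x ρ
  obtain ⟨M, hM, hbound⟩ := flow_bound hE hfin.toFinset (fun g => dist x (g • x))
    (le_max_right ρ 0) hC
  refine ⟨M, hM, ?_⟩
  intro N a b hN hch
  have key : ∀ t : ℕ, ∃ (n : ℕ) (p : ℕ → G), t ∈ Finset.Icc 1 N →
      ((∀ i < n, (p i)⁻¹ * p (i + 1) ∈ hfin.toFinset) ∧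
        (∀ i ≤ n, |dist x (p i • x) - t| ≤ max ρ 0) ∧
        (∀ i ≤ n, ∀ j ≤ n, p i = p j → i = j) ∧ (n : ℝ) ≤ C * t) ∧ p 0 = a t ∧ p n = b t := by
    intro t
    by_cases ht : t ∈ Finset.Icc 1 N
    · obtain ⟨n, hn, w, hw0, hwn, hst, hlev⟩ := hch t ht
      obtain ⟨m, hm, p, hp0, hpm, hR, hV, hinj⟩ := exists_inj_chain
        (fun g g' : G => g⁻¹ * g' ∈ hfin.toFinset) (fun g => |dist x (g • x) - t| ≤ ρ) n w
        (by
          intro i hi
          simp only [Set.Finite.mem_toFinset, Set.mem_setOf_eq]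
          have h1 := hst i hi
          rw [mul_smul]
          have h2 : dist x ((w i)⁻¹ • w (i + 1) • x) = dist (w i • x) (w (i + 1) • x) := by
            rw [← dist_smul (w i) x ((w i)⁻¹ • w (i + 1) • x), smul_inv_smul]
          rw [h2]
          exact h1) hlev
      refine ⟨m, p, fun _ => ⟨⟨hR, fun i hi => (hV i hi).trans (le_max_left _ _), hinj, ?_⟩, ?_, ?_⟩⟩
      · exact le_trans (by exact_mod_cast hm) hn
      · rw [hp0, hw0]
      · rw [hpm, hwn]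
    · exact ⟨0, fun _ => 1, fun h => absurd h ht⟩
  choose n p hnp using key
  have h1 := hbound N n p (fun t ht => (hnp t ht).1)
  have h2 : ∑ t ∈ Finset.Icc 1 N, (1 / (t : ℝ)) • E (p t 0) (p t (n t)) =
      ∑ t ∈ Finset.Icc 1 N, (1 / (t : ℝ)) • E (a t) (b t) := by
    apply Finset.sum_congr rfl
    intro t ht
    rw [(hnp t ht).2.1, (hnp t ht).2.2]
  rw [h2] at h1
  have hL := Lam_pos hN
  have h3 : ‖∑ t ∈ Finset.Icc 1 N, (1 / (t : ℝ)) • E (a t) (b t)‖ ^ 2 ≤ M * Lam N := h1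
  rw [norm_smul, mul_pow, Real.norm_eq_abs, abs_of_pos (by positivity : (0:ℝ) < 1 / Lam N)]
  calc (1 / Lam N) ^ 2 * ‖∑ t ∈ Finset.Icc 1 N, (1 / (t : ℝ)) • E (a t) (b t)‖ ^ 2
      ≤ (1 / Lam N) ^ 2 * (M * Lam N) := by
        apply mul_le_mul_of_nonneg_left h3 (by positivity)
    _ = M / Lam N := by field_simp

end Pool.Agent.H25.Bet
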