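import Pool.Agent.H25.Bet.AvgA

/-!
# Logarithmic averages along segments: the three estimates

JOB BT-10. All three follow from `lavg_chain`. For `lavg_close` and `lavg_far`:
`lavg u - lavg v = (1/Λ) • ∑ (1/t) • E (q (rad x t v)) (q (rad x t u))` (`hE.add`). `lavg_close`: chains of
one step: `dist (rad x t u) (rad x t v) ≤ 1` for `t ≤ N` by `rad_mono`, so `dist (q .. • x) (q .. • x)
≤ 2D+1`, `|dist x (q z • x) - dist x z| ≤ D`; use `ρ = 2D+1`, `C = 1` (`D ≥ 0` since `dist z (q z•x) ≥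
0`). `lavg_far`: `radial_chain` for each `t ≤ N` (`t ≤ N ≤ dist x (pt u v a)`) gives points `w i` on the sphere of radius `t`,
take `q (w i)`; `n ≤ 2πt+1 ≤ (2π+1)t`. (For `a = 0, 1` the hypothesis gives `N ≤ dist x u, dist x v`.)
`lavg_base`: one step from `q (rad x t (s•u))` to `s * q (rad x t u)`: `s • rad x t u = rad (s•x) t (s•u)`
by `rad_smul`, and `rad_base` gives `dist (rad x t (s•u)) (rad (s•x) t (s•u)) ≤ 2 dist x (s•x)`
(`t ≤ dist x (s•u)` because `dist (s•x) (s•u) = dist x u ≥ N + dist x (s•x)`); use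
`ρ = 2D + 3 dist x (s•x)`.
-/

open Set Metric

namespace Pool.Agent.H25.Bet

open Pool.Agent.H29

variable {G X H : Type*} [Group G] [MetricSpace X] [IsCAT0 X] [MulAction G X]
  [IsIsometricSMul G X] [NormedAddCommGroup H] [NormedSpace ℝ H]

/-- the logarithmic average of `E(1, ·)` along the segment `[x,u]` -/
noncomputable def lavg (E : G → G → H) (q : X → G) (x : X) (N : ℕ) (u : X) : H :=
  (1 / Lam N) • ∑ t ∈ Finset.Icc 1 N, (1 / (t : ℝ)) • E 1 (q (rad x t u))

variable [ProperSpace X] [ProperlyDiscontinuousSMul G X] {E : G → G → H}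
  {q : X → G} {x : X} {D : ℝ}

omit [ProperSpace X] [ProperlyDiscontinuousSMul G X] [IsIsometricSMul G X] [MulAction G X] in
lemma lavg_sub (hE : Flowy E) (N : ℕ) (u v : X) : lavg E q x N u - lavg E q x N v =
    (1 / Lam N) • ∑ t ∈ Finset.Icc 1 N, (1 / (t : ℝ)) • E (q (rad x t v)) (q (rad x t u)) := by
  unfold lavg
  rw [← smul_sub, ← Finset.sum_sub_distrib]
  congr 1
  refine Finset.sum_congr rfl fun t _ => ?_
  rw [← smul_sub, ← hE.add 1 (q (rad x t v)) (q (rad x t u)), add_sub_cancel_left]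

omit [ProperSpace X] [ProperlyDiscontinuousSMul G X] [IsIsometricSMul G X] [IsCAT0 X] in
lemma lavg_D_nonneg (hq : ∀ z, dist z (q z • x) ≤ D) : 0 ≤ D := dist_nonneg.trans (hq x)

omit [ProperSpace X] [ProperlyDiscontinuousSMul G X] [IsIsometricSMul G X] [IsCAT0 X] in
lemma lavg_step (hq : ∀ z, dist z (q z • x) ≤ D) {z w : X} {r : ℝ} (h : dist z w ≤ r) :
    dist (q z • x) (q w • x) ≤ 2 * D + r := by
  have h1 := dist_triangle4 (q z • x) z w (q w • x)
  have h2 := hq z
  have h3 := hq w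
  rw [dist_comm] at h2
  linarith

omit [ProperSpace X] [ProperlyDiscontinuousSMul G X] [IsIsometricSMul G X] [IsCAT0 X] in
lemma lavg_lev (hq : ∀ z, dist z (q z • x) ≤ D) {z : X} {t : ℝ} (h : dist x z = t) :
    |dist x (q z • x) - t| ≤ D := by
  have h1 := dist_triangle x z (q z • x)
  have h2 := dist_triangle x (q z • x) z
  have h3 := hq z
  rw [dist_comm (q z • x) z] at h2
  rw [abs_le]
  constructor <;> linarith

lemma lavg_close (hE : Flowy E) (hq : ∀ z, dist z (q z • x) ≤ D) :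
    ∃ M : ℝ, 0 ≤ M ∧ ∀ (N : ℕ) (u v : X), 1 ≤ N → (N : ℝ) ≤ dist x u →
    (N : ℝ) ≤ dist x v → dist (rad x N u) (rad x N v) ≤ 1 →
    ‖lavg E q x N u - lavg E q x N v‖ ^ 2 ≤ M / Lam N := by
  have hD := lavg_D_nonneg hq
  obtain ⟨M, hM, hM'⟩ := lavg_chain hE x (zero_le_one) (2 * D + 1)
  refine ⟨M, hM, fun N u v hN hu hv huv => ?_⟩
  rw [lavg_sub hE]
  refine hM' N (fun t => q (rad x t v)) (fun t => q (rad x t u)) hN fun t ht => ?_
  obtain ⟨ht1, ht2⟩ := Finset.mem_Icc.1 ht
  have ht1' : (1 : ℝ) ≤ t := by exact_mod_cast ht1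
  have ht2' : (t : ℝ) ≤ N := by exact_mod_cast ht2
  have ht0 : (0 : ℝ) ≤ t := by linarith
  refine ⟨1, by push_cast; linarith, fun i => if i = 0 then q (rad x t v) else q (rad x t u), rfl, rfl,
    ?_, ?_⟩
  · intro i hi
    obtain rfl : i = 0 := by omega
    have h1 : dist (rad x t v) (rad x t u) ≤ 1 := by
      rw [dist_comm]
      exact (rad_mono ht0 ht2' hu hv).trans huv
    exact lavg_step hq h1
  · intro i hi
    have hb : ∀ z : X, (t : ℝ) ≤ dist x z → |dist x (q (rad x t z) • x) - t| ≤ 2 * D + 1 := fun z hz =>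
      (lavg_lev hq (dist_rad ht0 hz)).trans (by linarith)
    by_cases h0 : i = 0
    · simp only [h0, if_true]
      exact hb v (by linarith)
    · simp only [h0, if_false]
      exact hb u (by linarith)

lemma lavg_far (hE : Flowy E) (hq : ∀ z, dist z (q z • x) ≤ D) :
    ∃ M : ℝ, 0 ≤ M ∧ ∀ (N : ℕ) (u v : X), 1 ≤ N →
    (∀ a ∈ Icc (0 : ℝ) 1, (N : ℝ) ≤ dist x (pt u v a)) →
    ‖lavg E q x N u - lavg E q x N v‖ ^ 2 ≤ M / Lam N := by
  have hD := lavg_D_nonneg hq
  have hC : (0 : ℝ) ≤ 2 * Real.pi + 1 := by have := Real.pi_pos; linarith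
  obtain ⟨M, hM, hM'⟩ := lavg_chain hE x hC (2 * D + 1)
  refine ⟨M, hM, fun N u v hN huv => ?_⟩
  rw [norm_sub_rev, lavg_sub hE]
  refine hM' N (fun t => q (rad x t u)) (fun t => q (rad x t v)) hN fun t ht => ?_
  obtain ⟨ht1, ht2⟩ := Finset.mem_Icc.1 ht
  have ht1' : (1 : ℝ) ≤ t := by exact_mod_cast ht1
  have ht2' : (t : ℝ) ≤ N := by exact_mod_cast ht2
  have ht0 : (0 : ℝ) < t := by linarith
  obtain ⟨n, hn, w, hw0, hwn, hw1, hw2⟩ := radial_chain (x := x) (u := u) (v := v) ht0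
    (fun a ha => ht2'.trans (huv a ha))
  refine ⟨n, by nlinarith [Real.pi_pos], fun i => q (w i), by show q (w 0) = _; rw [hw0],
    by show q (w n) = _; rw [hwn], fun i hi => lavg_step hq (hw1 i hi), fun i hi => ?_⟩
  exact (lavg_lev hq (hw2 i hi)).trans (by linarith)

lemma lavg_base (hE : Flowy E) (hq : ∀ z, dist z (q z • x) ≤ D) (s : G) :
    ∃ M : ℝ, 0 ≤ M ∧ ∀ (N : ℕ) (u : X), 1 ≤ N →
    (N : ℝ) + dist x (s • x) ≤ dist x u →
    ‖(1 / Lam N) • ∑ t ∈ Finset.Icc 1 N, (1 / (t : ℝ)) • E (q (rad x t (s • u)))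
      (s * q (rad x t u))‖ ^ 2 ≤ M / Lam N := by
  have hD := lavg_D_nonneg hq
  have hs : 0 ≤ dist x (s • x) := dist_nonneg
  obtain ⟨M, hM, hM'⟩ := lavg_chain hE x (zero_le_one) (2 * D + 3 * dist x (s • x))
  refine ⟨M, hM, fun N u hN hu => ?_⟩
  refine hM' N (fun t => q (rad x t (s • u))) (fun t => s * q (rad x t u)) hN fun t ht => ?_
  obtain ⟨ht1, ht2⟩ := Finset.mem_Icc.1 ht
  have ht1' : (1 : ℝ) ≤ t := by exact_mod_cast ht1
  have ht2' : (t : ℝ) ≤ N := by exact_mod_cast ht2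
  have ht0 : (0 : ℝ) ≤ t := by linarith
  have hxu : (t : ℝ) ≤ dist x u := by linarith
  have hsu : dist (s • x) (s • u) = dist x u := dist_smul s x u
  have hxsu : (t : ℝ) ≤ dist x (s • u) := by
    have h1 := dist_triangle (s • x) x (s • u)
    rw [dist_comm (s • x) x] at h1
    linarith
  have hz : s • rad x t u = rad (s • x) t (s • u) := rad_smul s ht0 hxu
  have hbase : dist (rad x t (s • u)) (s • rad x t u) ≤ 2 * dist x (s • x) := by
    rw [hz]
    exact rad_base ht0 hxsu (by rw [hsu]; exact hxu)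
  have hq2 : dist (s • rad x t u) ((s * q (rad x t u)) • x) ≤ D := by
    rw [mul_smul, dist_smul]
    exact hq _
  refine ⟨1, by push_cast; linarith,
    fun i => if i = 0 then q (rad x t (s • u)) else s * q (rad x t u), rfl, rfl, ?_, ?_⟩
  · intro i hi
    obtain rfl : i = 0 := by omega
    show dist (q (rad x t (s • u)) • x) ((s * q (rad x t u)) • x) ≤ _
    have h1 := dist_triangle4 (q (rad x t (s • u)) • x) (rad x t (s • u)) (s • rad x t u)
      ((s * q (rad x t u)) • x)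
    have h2 := hq (rad x t (s • u))
    rw [dist_comm] at h2
    linarith
  · intro i hi
    by_cases h0 : i = 0
    · simp only [h0, if_true]
      exact (lavg_lev hq (dist_rad ht0 hxsu)).trans (by linarith)
    · simp only [h0, if_false]
      have h1 : dist (s • x) (s • rad x t u) = t := by rw [dist_smul, dist_rad ht0 hxu]
      have h2 := dist_triangle x (s • x) (s • rad x t u)
      have h3 := dist_triangle (s • x) x (s • rad x t u)
      have h4 := dist_triangle x (s • rad x t u) ((s * q (rad x t u)) • x)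
      have h5 := dist_triangle x ((s * q (rad x t u)) • x) (s • rad x t u)
      rw [dist_comm (s • x) x] at h3
      rw [dist_comm ((s * q (rad x t u)) • x) (s • rad x t u)] at h5
      rw [abs_le]
      constructor <;> linarith

end Pool.Agent.H25.Bet
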