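import Mathlib

/-!
# Subsampling a chain

JOB BT-2. Proof of `subsample`: greedy. Prove by induction on `k ≤ m`: there are `n j : ℕ` with
`j ≤ k`, a chain `w 0 = z 0, ..., w n = z j` with steps at most `1`, all `w i` among the `z`'s,
`(n : ℝ) / 2 ≤ ∑ i ∈ range j, dist (z i) (z (i+1))` and
`∑ i ∈ Ico j k, dist (z i) (z (i+1)) ≤ 1/2`. Step from `k` to `k+1`: if the sum over `Ico j (k+1)`
is at most `1/2` keep everything; otherwise append `z (k+1)`: the new step has length at most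
`∑ i ∈ Ico j (k+1) ≤ 1/2 + 1/2`, and the sum over `Ico j (k+1)` is more than `1/2`. At the end
append `z m` (a step of length at most `1/2`).
-/

open Set Finset

namespace Pool.Agent.H25.Bet

/-- Appending a point to a chain. -/
lemma chainA_append {X : Type*} [MetricSpace X] {n : ℕ} {w : ℕ → X} {y : X}
    (hw : ∀ i < n, dist (w i) (w (i + 1)) ≤ 1) (hy : dist (w n) y ≤ 1) :
    ∃ w' : ℕ → X, w' 0 = w 0 ∧ w' (n + 1) = y ∧ (∀ i < n + 1, dist (w' i) (w' (i + 1)) ≤ 1) ∧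
      ∀ i ≤ n + 1, (i ≤ n ∧ w' i = w i) ∨ w' i = y := by
  refine ⟨fun i => if i ≤ n then w i else y, by simp, by simp, ?_, ?_⟩
  · intro i hi
    by_cases h : i + 1 ≤ n
    · have h1 : i ≤ n := by omega
      simp only [if_pos h, if_pos h1]
      exact hw i (by omega)
    · have h1 : i = n := by omega
      subst h1
      simp only [if_neg h, le_refl, if_true]
      exact hy
  · intro i hi
    by_cases h : i ≤ n
    · left
      exact ⟨h, if_pos h⟩
    · right
      exact if_neg h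

lemma chainA_ind {X : Type*} [MetricSpace X] {m : ℕ} {z : ℕ → X}
    (hs : ∀ i < m, dist (z i) (z (i + 1)) ≤ 1 / 2) (k : ℕ) (hk : k ≤ m) :
    ∃ j ≤ k, ∃ n : ℕ, ∃ w : ℕ → X, w 0 = z 0 ∧ w n = z j ∧
      (∀ i < n, dist (w i) (w (i + 1)) ≤ 1) ∧ (∀ i ≤ n, ∃ j' ≤ k, w i = z j') ∧
      (n : ℝ) / 2 ≤ ∑ i ∈ Finset.range j, dist (z i) (z (i + 1)) ∧
      ∑ i ∈ Finset.Ico j k, dist (z i) (z (i + 1)) ≤ 1 / 2 := by
  induction k with
  | zero =>
    refine ⟨0, le_refl _, 0, fun _ => z 0, rfl, rfl, ?_, ?_, ?_, ?_⟩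
    · intro i hi; omega
    · intro i _; exact ⟨0, le_refl _, rfl⟩
    · simp
    · simp
  | succ k ih =>
    obtain ⟨j, hj, n, w, hw0, hwn, hw1, hw2, hn, hI⟩ := ih (by omega)
    have hS : ∑ i ∈ Finset.Ico j (k + 1), dist (z i) (z (i + 1)) =
        ∑ i ∈ Finset.Ico j k, dist (z i) (z (i + 1)) + dist (z k) (z (k + 1)) :=
      Finset.sum_Ico_succ_top hj _
    by_cases h : ∑ i ∈ Finset.Ico j (k + 1), dist (z i) (z (i + 1)) ≤ 1 / 2
    · refine ⟨j, by omega, n, w, hw0, hwn, hw1, ?_, hn, h⟩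
      intro i hi
      obtain ⟨j', hj', h1⟩ := hw2 i hi
      exact ⟨j', by omega, h1⟩
    · rw [not_le] at h
      have h1 : dist (w n) (z (k + 1)) ≤ 1 := by
        rw [hwn]
        have h2 := dist_le_Ico_sum_dist z (show j ≤ k + 1 by omega)
        have h3 := hs k (by omega)
        linarith
      obtain ⟨w', h2, h3, h4, h5⟩ := chainA_append hw1 h1
      refine ⟨k + 1, le_refl _, n + 1, w', by rw [h2, hw0], h3, h4, ?_, ?_, ?_⟩
      · intro i hi
        rcases h5 i hi with ⟨h6, h7⟩ | h7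
        · obtain ⟨j', hj', h8⟩ := hw2 i h6
          exact ⟨j', by omega, by rw [h7, h8]⟩
        · exact ⟨k + 1, le_refl _, h7⟩
      · have h6 : ∑ i ∈ Finset.range (k + 1), dist (z i) (z (i + 1)) =
            ∑ i ∈ Finset.range j, dist (z i) (z (i + 1)) +
            ∑ i ∈ Finset.Ico j (k + 1), dist (z i) (z (i + 1)) := by
          rw [Finset.sum_range_add_sum_Ico _ (by omega)]
        rw [h6]
        push_cast
        linarith
      · simp

/-- A chain of total length at most `L` with short steps can be replaced by a chain of at most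
`2 L + 1` steps of length at most one, using the same points. -/
lemma subsample {X : Type*} [MetricSpace X] {m : ℕ} {z : ℕ → X} {L : ℝ}
    (hs : ∀ i < m, dist (z i) (z (i + 1)) ≤ 1 / 2)
    (hL : ∑ i ∈ Finset.range m, dist (z i) (z (i + 1)) ≤ L) :
    ∃ n : ℕ, (n : ℝ) ≤ 2 * L + 1 ∧ ∃ w : ℕ → X, w 0 = z 0 ∧ w n = z m ∧
      (∀ i < n, dist (w i) (w (i + 1)) ≤ 1) ∧ ∀ i ≤ n, ∃ j ≤ m, w i = z j := by
  obtain ⟨j, hj, n, w, hw0, hwn, hw1, hw2, hn, hI⟩ := chainA_ind hs m le_rfl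
  have h1 : dist (w n) (z m) ≤ 1 := by
    rw [hwn]
    have h2 := dist_le_Ico_sum_dist z hj
    linarith
  obtain ⟨w', h2, h3, h4, h5⟩ := chainA_append hw1 h1
  refine ⟨n + 1, ?_, w', by rw [h2, hw0], h3, h4, ?_⟩
  · have h6 : ∑ i ∈ Finset.range m, dist (z i) (z (i + 1)) =
        ∑ i ∈ Finset.range j, dist (z i) (z (i + 1)) +
        ∑ i ∈ Finset.Ico j m, dist (z i) (z (i + 1)) := by
      rw [Finset.sum_range_add_sum_Ico _ hj]
    have h7 : 0 ≤ ∑ i ∈ Finset.Ico j m, dist (z i) (z (i + 1)) :=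
      Finset.sum_nonneg fun i _ => dist_nonneg
    push_cast
    linarith
  · intro i hi
    rcases h5 i hi with ⟨h6, h7⟩ | h7
    · obtain ⟨j', hj', h8⟩ := hw2 i h6
      exact ⟨j', hj', by rw [h7, h8]⟩
    · exact ⟨m, le_rfl, h7⟩

end Pool.Agent.H25.Bet
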