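import Pool.Agent.H25.Bet.Gate

/-!
# The closing lemma

JOB BT-7. Proof. Write `|g| = dist x (g•x) = |g⁻¹|`, `A(g) = A (g•x)`.
(1) If `4T^2+2T+1 ≤ |g|`, then `‖A(g) - A(g⁻¹)‖ ≤ 3ε`: as `g` is not rank one, `rankOne_of_gate`
says that `Gate T x (g⁻¹•x) (g•x)` fails: there are `u, v` with `T ≤ dist x u, dist x v`, near
`g⁻¹•x`, `g•x` at radius `T`, with `T ≤ dist x (pt u v s)` for all `s ∈ [0,1]`. Use `h1, h2, h1`.
(2) If `T ≤ |y|`, and `2T|h| ≤ |y|` and `T + |h| ≤ |y|` then `‖A(y) - A(y h)‖ ≤ ε`: here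
`dist (y•x) ((y*h)•x) = |h|`, use `rad_near` (`dist * |y| ≤ 2T|h| ≤ |y|`) and `h1`.
Let `L = 4T^2+2T+1` and let `h` satisfy `|h| ≥ L`; take `L' = L + (2T+1)(|h|+1)`, `|y| ≥ L'`.
Case 1: `T ≤ dist x (pt (h•x) (y•x) s)` for all `s ∈ [0,1]`: `h2`: `‖A(h) - A(y)‖ ≤ ε`.
Case 2: some `z = pt (h•x) (y•x) s` has `dist x z < T`. Apply `h⁻¹`: `h⁻¹•z` lies on the segment
`[x, (h⁻¹y)•x]` and `dist (h⁻¹•x) (h⁻¹•z) < T`; `rad_pt` and `rad_near` give
`dist (rad x T (h⁻¹•x)) (rad x T ((h⁻¹*y)•x)) * |h| ≤ 2T*T ≤ |h|`, so `‖A(h⁻¹) - A(h⁻¹y)‖ ≤ ε`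
(`dist x (h⁻¹•z) ≥ |h| - T ≥ T`). Then
`A(y) ~ A(y⁻¹)` (3ε, (1)), `A(y⁻¹) ~ A(y⁻¹h)` (ε, (2) for `y⁻¹`), `A(y⁻¹h) ~ A(h⁻¹y)` (3ε, (1) for
`y⁻¹h`, `|y⁻¹h| ≥ |y| - |h| ≥ L`), `A(h⁻¹y) ~ A(h⁻¹)` (ε), `A(h⁻¹) ~ A(h)` (3ε, (1)): total `11ε`.
-/

open Set Metric

namespace Pool.Agent.H25.Bet

open Pool.Agent.H29

variable {G X : Type*} [Group G] [MetricSpace X] [IsCAT0 X] [ProperSpace X] [MulAction G X]
  [IsIsometricSMul G X] [ProperlyDiscontinuousSMul G X]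

/-- If `G` has no rank-one isometry then a function of the direction (at radius `T`) which changes
by at most `ε` along segments missing the ball of radius `T` is nearly constant on the orbit. -/
theorem closing (hcoc : Cocompact G X) (hno : ¬ ∃ g : G, IsRankOne (X := X) g)
    {H : Type*} [SeminormedAddCommGroup H] (A : X → H) {T ε : ℝ} (hT : 1 ≤ T) (hε : 0 ≤ ε) (x : X)
    (h1 : ∀ u v : X, T ≤ dist x u → T ≤ dist x v → dist (rad x T u) (rad x T v) ≤ 1 →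
      ‖A u - A v‖ ≤ ε)
    (h2 : ∀ u v : X, (∀ a ∈ Icc (0 : ℝ) 1, T ≤ dist x (pt u v a)) → ‖A u - A v‖ ≤ ε) :
    ∃ L : ℝ, ∀ h : G, L ≤ dist x (h • x) → ∃ L' : ℝ, ∀ y : G, L' ≤ dist x (y • x) →
      ‖A (y • x) - A (h • x)‖ ≤ 11 * ε := by
  have hT0 : 0 ≤ T := by linarith
  set L : ℝ := 4 * T ^ 2 + 2 * T + 1 with hL
  have hTL : 2 * T ≤ L := by rw [hL]; nlinarith [sq_nonneg T]
  -- step 1: opposite directions are close
  have s1 : ∀ g : G, L ≤ dist x (g • x) → ‖A (g • x) - A (g⁻¹ • x)‖ ≤ 3 * ε := by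
    intro g hg
    have hng : ¬ Gate T x (g⁻¹ • x) (g • x) :=
      fun h => hno ⟨g, rankOne_of_gate hcoc hT hg h⟩
    unfold Gate at hng
    push Not at hng
    obtain ⟨u, v, hu, hv, hu', hv', hs⟩ := hng
    have a1 : ‖A u - A (g⁻¹ • x)‖ ≤ ε :=
      h1 _ _ hu (by rw [dist_inv_smul]; linarith) hu'
    have a2 : ‖A v - A (g • x)‖ ≤ ε := h1 _ _ hv (by linarith) hv'
    have a3 : ‖A u - A v‖ ≤ ε := h2 _ _ hs
    have e : A (g • x) - A (g⁻¹ • x) =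
        -(A v - A (g • x)) + (-(A u - A v)) + (A u - A (g⁻¹ • x)) := by abel
    rw [e]
    have b1 := norm_add_le (-(A v - A (g • x)) + (-(A u - A v))) (A u - A (g⁻¹ • x))
    have b2 := norm_add_le (-(A v - A (g • x))) (-(A u - A v))
    rw [norm_neg, norm_neg] at b2
    linarith
  -- step 2: nearby points of the orbit
  have s2 : ∀ y h : G, T ≤ dist x (y • x) → 2 * T * dist x (h • x) ≤ dist x (y • x) →
      T + dist x (h • x) ≤ dist x (y • x) → ‖A (y • x) - A ((y * h) • x)‖ ≤ ε := by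
    intro y h hy1 hy2 hy3
    have d1 : dist (y • x) ((y * h) • x) = dist x (h • x) := by rw [mul_smul, dist_smul]
    have d2 := dist_triangle x ((y * h) • x) (y • x)
    rw [dist_comm ((y * h) • x) (y • x), d1] at d2
    have d3 : T ≤ dist x ((y * h) • x) := by linarith
    apply h1 _ _ hy1 d3
    have d4 := rad_near hT0 hy1 d3
    rw [d1] at d4
    by_contra hcon
    push Not at hcon
    have hpos : 0 < dist x (y • x) := by linarith
    have d5 : 1 * dist x (y • x) <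
        dist (rad x T (y • x)) (rad x T ((y * h) • x)) * dist x (y • x) :=
      mul_lt_mul_of_pos_right hcon hpos
    linarith
  refine ⟨L, fun h hh => ⟨L + (2 * T + 1) * (dist x (h • x) + 1), fun y hy => ?_⟩⟩
  have hh0 : 0 ≤ dist x (h • x) := dist_nonneg
  have hTh : 0 ≤ T * dist x (h • x) := mul_nonneg hT0 hh0
  have y1 : T ≤ dist x (y • x) := by nlinarith
  have y2 : 2 * T * dist x (h • x) ≤ dist x (y • x) := by nlinarith
  have y3 : L + dist x (h • x) ≤ dist x (y • x) := by nlinarith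
  by_cases hc : ∀ a ∈ Icc (0 : ℝ) 1, T ≤ dist x (pt (h • x) (y • x) a)
  · have := h2 _ _ hc
    rw [norm_sub_rev]
    linarith
  · push Not at hc
    obtain ⟨s, hs, hz⟩ := hc
    set z := pt (h • x) (y • x) s with hzdef
    have e1 : h⁻¹ • z = pt x ((h⁻¹ * y) • x) s := by
      rw [hzdef, map_pt (isometry_smul X h⁻¹) _ _ hs, inv_smul_smul, mul_smul]
    have d1 : dist (h⁻¹ • x) (h⁻¹ • z) < T := by rw [dist_smul]; exact hz
    have d2 := dist_triangle x (h⁻¹ • z) (h⁻¹ • x)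
    rw [dist_comm (h⁻¹ • z), dist_inv_smul] at d2
    have d3 : T ≤ dist x (h⁻¹ • z) := by linarith
    have e2 : rad x T (h⁻¹ • z) = rad x T ((h⁻¹ * y) • x) := by
      rw [e1]
      apply rad_pt hs hT0
      rw [← e1]; exact d3
    have d4 : T ≤ dist x (h⁻¹ • x) := by rw [dist_inv_smul]; linarith
    have d5 := rad_near hT0 d4 d3
    rw [e2, dist_inv_smul] at d5
    have d6 : T ≤ dist x ((h⁻¹ * y) • x) := by
      refine d3.trans ?_
      rw [e1, dist_left_pt _ _ hs]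
      exact mul_le_of_le_one_left dist_nonneg hs.2
    have d7 : dist (rad x T (h⁻¹ • x)) (rad x T ((h⁻¹ * y) • x)) ≤ 1 := by
      by_contra hcon
      push Not at hcon
      have hpos : 0 < dist x (h • x) := by linarith
      have k1 : 1 * dist x (h • x) <
          dist (rad x T (h⁻¹ • x)) (rad x T ((h⁻¹ * y) • x)) * dist x (h • x) :=
        mul_lt_mul_of_pos_right hcon hpos
      have k2 : 2 * T * dist (h⁻¹ • x) (h⁻¹ • z) ≤ 2 * T * T :=
        mul_le_mul_of_nonneg_left d1.le (by linarith)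
      nlinarith
    have c1 : ‖A (y • x) - A (y⁻¹ • x)‖ ≤ 3 * ε := s1 y (by linarith)
    have c2 : ‖A (y⁻¹ • x) - A ((y⁻¹ * h) • x)‖ ≤ ε := by
      apply s2
      · rw [dist_inv_smul]; exact y1
      · rw [dist_inv_smul]; exact y2
      · rw [dist_inv_smul]; linarith
    have c3 : ‖A ((y⁻¹ * h) • x) - A ((y⁻¹ * h)⁻¹ • x)‖ ≤ 3 * ε := by
      apply s1
      have k1 := dist_triangle x ((y⁻¹ * h) • x) (y⁻¹ • x)
      rw [dist_comm ((y⁻¹ * h) • x), mul_smul, dist_smul, dist_inv_smul] at k1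
      rw [mul_smul]
      linarith
    have e3 : (y⁻¹ * h)⁻¹ = h⁻¹ * y := by group
    rw [e3] at c3
    have c4 : ‖A (h⁻¹ • x) - A ((h⁻¹ * y) • x)‖ ≤ ε := h1 _ _ d4 d6 d7
    have c5 : ‖A (h • x) - A (h⁻¹ • x)‖ ≤ 3 * ε := s1 h hh
    have e4 : A (y • x) - A (h • x) = (A (y • x) - A (y⁻¹ • x)) +
        ((A (y⁻¹ • x) - A ((y⁻¹ * h) • x)) + ((A ((y⁻¹ * h) • x) - A ((h⁻¹ * y) • x)) +
        (-(A (h⁻¹ • x) - A ((h⁻¹ * y) • x)) + (-(A (h • x) - A (h⁻¹ • x)))))) := by abel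
    rw [e4]
    refine (norm_add_le _ _).trans ?_
    have f1 := norm_add_le (A (y⁻¹ • x) - A ((y⁻¹ * h) • x)) ((A ((y⁻¹ * h) • x) -
        A ((h⁻¹ * y) • x)) + (-(A (h⁻¹ • x) - A ((h⁻¹ * y) • x)) + (-(A (h • x) - A (h⁻¹ • x)))))
    have f2 := norm_add_le (A ((y⁻¹ * h) • x) -
        A ((h⁻¹ * y) • x)) (-(A (h⁻¹ • x) - A ((h⁻¹ * y) • x)) + (-(A (h • x) - A (h⁻¹ • x))))
    have f3 := norm_add_le (-(A (h⁻¹ • x) - A ((h⁻¹ * y) • x))) (-(A (h • x) - A (h⁻¹ • x)))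
    rw [norm_neg, norm_neg] at f3
    linarith

end Pool.Agent.H25.Bet
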