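import Pool.Agent.H25.Bet.AvgB
import Pool.Agent.H25.Bet.Closing

/-!
# Without rank-one isometries the cocycle is almost a coboundary

JOB BT-11. Proof of `almost_coboundary`. If `G` is finite: `a = (1/|G|) • ∑ g, E 1 g`; then
`ρ s a = (1/|G|) ∑ E s (s g) = (1/|G|) ∑ E s g`, `a - ρ s a = (1/|G|) ∑ (E 1 g - E s g) = E 1 s`.
(`E a a = 0` and `E 1 g = E 1 s + E s g` from `hE.add`.)
If `G` is infinite: choose `x : X`, `q` with `dist z (q z•x) ≤ D` (`hcoc.orbit x`, `choose`). There are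
elements `g` with `dist x (g•x)` arbitrarily large (`finite_near x x r`). Let `M` bound the
constants of `lavg_close`, `lavg_far` and `lavg_base s` (`s ∈ S`), take `N ≥ 1` with
`M / Lam N ≤ (ε/23)^2` (`Lam_tendsto`), so all three norms are `≤ ε' := ε/23`. Apply `closing` with
`T = N`, `A = lavg E q x N`, `ε'`: get `L`. Choose `h` with `dist x (h•x) ≥ L + N + ∑ s ∈ S, dist x
(s•x)` (so also `dist x ((s*h)•x) ≥ L`), then for `s ∈ S` `closing` gives thresholds for `h` and
`s*h`; choose one `y` beyond all of them (finitely many): `‖A(h) - A(s h)‖ ≤ 22 ε'`. Put `a = A(h•x)`.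
`E 1 s + ρ s a - A(s•h•x) = (1/Λ) • ∑ (1/t) • (E 1 s + E s (s q_t) - E 1 (q'_t)) = (1/Λ) • ∑ (1/t) •
E (q'_t) (s q_t)`, where `q_t = q (rad x t (h•x))`, `q'_t = q (rad x t (s•h•x))`, of norm `≤ ε'` by
`lavg_base`. So `‖E 1 s - (a - ρ s a)‖ ≤ ε' + 22 ε' = ε`.
-/

open Set Metric

namespace Pool.Agent.H25.Bet

open Pool.Agent.H29

/-- If `G` has no rank-one isometry, then the cocycle `E(1, ·)` is a limit of coboundaries. -/
theorem almost_coboundary {G X H : Type*} [Group G] [MetricSpace X] [IsCAT0 X] [ProperSpace X]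
    [MulAction G X] [IsIsometricSMul G X] [ProperlyDiscontinuousSMul G X] [Nonempty X]
    (hcoc : Cocompact G X) (hno : ¬ ∃ g : G, IsRankOne (X := X) g)
    [NormedAddCommGroup H] [NormedSpace ℝ H] {E : G → G → H} (hE : Flowy E)
    (ρ : G → H →ₗ[ℝ] H) (hρ : ∀ s a b : G, ρ s (E a b) = E (s * a) (s * b))
    (S : Finset G) {ε : ℝ} (hε : 0 < ε) :
    ∃ a : H, ∀ s ∈ S, ‖E 1 s - (a - ρ s a)‖ ≤ ε := by
  classical
  rcases finite_or_infinite G with hfin | hinf
  · -- finite groups
    have := Fintype.ofFinite G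
    have hn0 : (Fintype.card G : ℝ) ≠ 0 := by
      simp [Fintype.card_ne_zero]
    refine ⟨(1 / (Fintype.card G : ℝ)) • ∑ g, E 1 g, fun s _ => ?_⟩
    have h1 : ρ s ((1 / (Fintype.card G : ℝ)) • ∑ g, E 1 g)
        = (1 / (Fintype.card G : ℝ)) • ∑ g, E s g := by
      rw [map_smul, map_sum]
      congr 1
      simp_rw [hρ, mul_one]
      exact Fintype.sum_equiv (Equiv.mulLeft s) _ _ (fun g => rfl)
    have h2 : ∀ g, E 1 g - E s g = E 1 s := fun g => by rw [← hE.add 1 s g]; abel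
    rw [h1, ← smul_sub, ← Finset.sum_sub_distrib, Finset.sum_congr rfl (fun g _ => h2 g),
      Finset.sum_const, Finset.card_univ, ← Nat.cast_smul_eq_nsmul ℝ, smul_smul,
      one_div_mul_cancel hn0, one_smul, sub_self, norm_zero]
    exact hε.le
  · obtain ⟨x⟩ := ‹Nonempty X›
    obtain ⟨D, hD⟩ := hcoc.orbit x
    choose q hq using hD
    obtain ⟨M1, hM1, hclose⟩ := lavg_close hE hq
    obtain ⟨M2, hM2, hfar⟩ := lavg_far hE hq
    choose M3 hM3 hbase using fun s : G => lavg_base hE hq s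
    set M : ℝ := M1 + M2 + ∑ s ∈ S, M3 s with hM
    have hM3S : 0 ≤ ∑ s ∈ S, M3 s := Finset.sum_nonneg fun s _ => hM3 s
    set ε' : ℝ := ε / 23 with hε'
    have hε'0 : 0 < ε' := by positivity
    obtain ⟨N, hN1, hN⟩ : ∃ N : ℕ, 1 ≤ N ∧ M / ε' ^ 2 ≤ Lam N := by
      obtain ⟨N, h1, h2⟩ := ((Filter.eventually_ge_atTop 1).and
        (Lam_tendsto.eventually_ge_atTop (M / ε' ^ 2))).exists
      exact ⟨N, h1, h2⟩
    have hLam : 0 < Lam N := Lam_pos hN1
    have hMN : M / Lam N ≤ ε' ^ 2 := by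
      rw [div_le_iff₀ (by positivity)] at hN
      rw [div_le_iff₀ hLam]
      linarith
    have key : ∀ {v : H} {m : ℝ}, m ≤ M → ‖v‖ ^ 2 ≤ m / Lam N → ‖v‖ ≤ ε' := by
      intro v m hm hv
      have h3 : m / Lam N ≤ M / Lam N := div_le_div_of_nonneg_right hm hLam.le
      exact (sq_le_sq₀ (norm_nonneg v) hε'0.le).1 (hv.trans (h3.trans hMN))
    have hN1' : (1 : ℝ) ≤ (N : ℝ) := by exact_mod_cast hN1
    obtain ⟨L, hL⟩ := closing hcoc hno (lavg E q x N) hN1' hε'0.le x
      (fun u v hu hv huv => key (by linarith) (hclose N u v hN1 hu hv huv))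
      (fun u v huv => key (by linarith) (hfar N u v hN1 huv))
    have hL2 : ∀ h : G, ∃ L' : ℝ, L ≤ dist x (h • x) → ∀ y : G, L' ≤ dist x (y • x) →
        ‖lavg E q x N (y • x) - lavg E q x N (h • x)‖ ≤ 11 * ε' := by
      intro h
      by_cases hh : L ≤ dist x (h • x)
      · obtain ⟨L', hL'⟩ := hL h hh
        exact ⟨L', fun _ => hL'⟩
      · exact ⟨0, fun h' => absurd h' hh⟩
    choose Lf hLf using hL2
    have hbig : ∀ R : ℝ, ∃ g : G, R < dist x (g • x) := by
      intro R
      obtain ⟨g, hg⟩ := (finite_near (G := G) x x R).exists_notMem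
      exact ⟨g, not_le.1 hg⟩
    obtain ⟨h, hh⟩ := hbig (|L| + N + ∑ s ∈ S, dist x (s • x))
    have hsum : ∀ s ∈ S, dist x (s • x) ≤ ∑ s ∈ S, dist x (s • x) := fun s hs =>
      Finset.single_le_sum (f := fun s : G => dist x (s • x)) (fun _ _ => dist_nonneg) hs
    have hsum0 : 0 ≤ ∑ s ∈ S, dist x (s • x) := Finset.sum_nonneg fun _ _ => dist_nonneg
    have hL0 : L ≤ |L| := le_abs_self L
    have hL00 : 0 ≤ |L| := abs_nonneg L
    have hhL : L ≤ dist x (h • x) := by linarith
    obtain ⟨y, hy⟩ := hbig (|Lf h| + ∑ s ∈ S, |Lf (s * h)|)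
    have hsumL : ∀ s ∈ S, |Lf (s * h)| ≤ ∑ s ∈ S, |Lf (s * h)| := fun s hs =>
      Finset.single_le_sum (f := fun s : G => |Lf (s * h)|) (fun _ _ => abs_nonneg _) hs
    have hsumL0 : 0 ≤ ∑ s ∈ S, |Lf (s * h)| := Finset.sum_nonneg fun _ _ => abs_nonneg _
    refine ⟨lavg E q x N (h • x), fun s hs => ?_⟩
    have hsh : L ≤ dist x ((s * h) • x) := by
      have h4 : dist (s • x) ((s * h) • x) = dist x (h • x) := by
        rw [mul_smul, dist_smul]
      have h5 : dist (s • x) ((s * h) • x) ≤ dist (s • x) x + dist x ((s * h) • x) :=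
        dist_triangle _ _ _
      rw [dist_comm (s • x) x] at h5
      have := hsum s hs
      linarith
    have e1 : ‖lavg E q x N (y • x) - lavg E q x N (h • x)‖ ≤ 11 * ε' :=
      hLf h hhL y (by have := le_abs_self (Lf h); linarith)
    have e2 : ‖lavg E q x N (y • x) - lavg E q x N ((s * h) • x)‖ ≤ 11 * ε' :=
      hLf (s * h) hsh y (by
        have := le_abs_self (Lf (s * h))
        have := hsumL s hs
        have := abs_nonneg (Lf h)
        linarith)
    have e3 := hbase s N (h • x) hN1 (by have := hsum s hs; linarith)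
    have e4 : ‖(1 / Lam N) • ∑ t ∈ Finset.Icc 1 N, (1 / (t : ℝ)) •
        E (q (rad x t (s • h • x))) (s * q (rad x t (h • x)))‖ ≤ ε' :=
      key (by
        have : M3 s ≤ ∑ s ∈ S, M3 s :=
          Finset.single_le_sum (f := fun s : G => M3 s) (fun s _ => hM3 s) hs
        linarith) e3
    have e5 : E 1 s + ρ s (lavg E q x N (h • x)) - lavg E q x N ((s * h) • x) =
        (1 / Lam N) • ∑ t ∈ Finset.Icc 1 N, (1 / (t : ℝ)) •
        E (q (rad x t (s • h • x))) (s * q (rad x t (h • x))) := by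
      have c1 : E 1 s = (1 / Lam N) • ∑ t ∈ Finset.Icc 1 N, (1 / (t : ℝ)) • E 1 s := by
        rw [← Finset.sum_smul, smul_smul]
        change E 1 s = (1 / Lam N * Lam N) • E 1 s
        rw [one_div_mul_cancel hLam.ne', one_smul]
      have c2 : ρ s (lavg E q x N (h • x)) = (1 / Lam N) • ∑ t ∈ Finset.Icc 1 N,
          (1 / (t : ℝ)) • E s (s * q (rad x t (h • x))) := by
        rw [lavg, map_smul, map_sum]
        congr 1
        refine Finset.sum_congr rfl fun t _ => ?_
        rw [map_smul, hρ, mul_one]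
      rw [c1, c2, lavg, ← smul_add, ← smul_sub, ← Finset.sum_add_distrib,
        ← Finset.sum_sub_distrib]
      congr 1
      refine Finset.sum_congr rfl fun t _ => ?_
      rw [← smul_add, ← smul_sub, hE.add, mul_smul,
        ← hE.add 1 (q (rad x t (s • h • x))) (s * q (rad x t (h • x))), add_sub_cancel_left]
    have e6 : E 1 s - (lavg E q x N (h • x) - ρ s (lavg E q x N (h • x))) =
        (E 1 s + ρ s (lavg E q x N (h • x)) - lavg E q x N ((s * h) • x)) +
        ((lavg E q x N (y • x) - lavg E q x N (h • x)) -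
        (lavg E q x N (y • x) - lavg E q x N ((s * h) • x))) := by abel
    rw [e6, e5]
    refine (norm_add_le _ _).trans ?_
    have e7 := norm_sub_le (lavg E q x N (y • x) - lavg E q x N (h • x))
      (lavg E q x N (y • x) - lavg E q x N ((s * h) • x))
    have : ε = 23 * ε' := by rw [hε']; ring
    linarith

end Pool.Agent.H25.Bet
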