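import Pool.Agent.H25.Bet.Rad
import Pool.Agent.H25.Bet.ChainA
import Pool.Agent.H25.Bet.Ang

/-!
# The radial projection of a segment which stays away from the base point

If the segment `[u,v]` stays outside the ball of radius `t` around `x`, then its radial projection
to the sphere of radius `t` has length at most `π t`.

JOB BT-5. `radial_length`: put `z i = pt u v (i/m)`, `r i = dist x (z i) ≥ t`, `σ = dist u v / m`
`= dist (z i) (z (i+1))`, `β i = arccos ((r i^2+σ^2-r (i+1)^2)/(2 (r i) σ))` (the comparison angle at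
`z i` of the triangle `x, z i, z (i+1)`), `γ i = arccos ((r (i+1)^2+σ^2-r i^2)/(2 (r (i+1)) σ))`.
By `rad_comp` and `angle_defect` (note `σ ≤ r i + r (i+1)`, `|r (i+1) - r i| ≤ σ` by the triangle
inequality) `dist (w i) (w (i+1)) ≤ t (π - β i - γ i)` (take square roots). By the CN inequality
(`cn_pt` for `z (i+1)`, the midpoint of `z i` and `z (i+2)`, use `pt_pt_pt` or `IsCAT0.cn`) and
`angle_sum_ge`: `γ i + β (i+1) ≥ π`. Hence by induction
`∑ i ∈ range (k+1), (π - β i - γ i) ≤ π - γ k` (the start is `β 0 ≥ 0`, `arccos_nonneg`), so the sum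
over `range m` is at most `π`.
`radial_chain`: if `u = v` take `n = 0`. Otherwise take `m > 0` with `dist u v / m ≤ 1/2`, the steps
are at most `σ ≤ 1/2` by `rad_lip`, and apply `subsample` to `z i := rad x t (pt u v (i/m))`.
-/

open Set

namespace Pool.Agent.H25.Bet

open Pool.Agent.H29 Real

variable {X : Type*} [MetricSpace X] [IsCAT0 X]

/-- the total length of the radial projection of a finely subdivided segment -/
lemma radial_length {x u v : X} {t : ℝ} (ht : 0 < t)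
    (h : ∀ a ∈ Icc (0 : ℝ) 1, t ≤ dist x (pt u v a)) (huv : u ≠ v) {m : ℕ} (hm : 0 < m) :
    ∑ i ∈ Finset.range m, dist (rad x t (pt u v (i / m))) (rad x t (pt u v ((i + 1 : ℕ) / m))) ≤
      π * t := by
  have hD : 0 < dist u v := dist_pos.mpr huv
  have hm' : (0 : ℝ) < m := by exact_mod_cast hm
  obtain ⟨σ, hσ⟩ : ∃ σ : ℝ, σ = dist u v / m := ⟨_, rfl⟩
  have hσ0 : 0 < σ := by rw [hσ]; positivity
  obtain ⟨z, hz⟩ : ∃ z : ℕ → X, ∀ i : ℕ, z i = pt u v ((i : ℝ) / m) := ⟨_, fun _ => rfl⟩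
  have hI : ∀ i ≤ m, ((i : ℝ) / m) ∈ Icc (0 : ℝ) 1 := by
    intro i hi
    refine ⟨by positivity, ?_⟩
    rw [div_le_one hm']
    exact_mod_cast hi
  have hzz : ∀ i j, i ≤ m → j ≤ m → dist (z i) (z j) = |(i : ℝ) - j| * σ := by
    intro i j hi hj
    rw [hz, hz, dist_pt_pt u v (hI i hi) (hI j hj), ← sub_div, abs_div, abs_of_pos hm', hσ]
    ring
  have hz1 : ∀ i < m, dist (z i) (z (i + 1)) = σ := by
    intro i hi
    rw [hzz i (i + 1) hi.le hi]
    have : |(i : ℝ) - ((i + 1 : ℕ) : ℝ)| = 1 := by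
      push_cast
      rw [show (i : ℝ) - (i + 1) = -1 by ring, abs_neg, abs_one]
    rw [this, one_mul]
  have hz2 : ∀ i, i + 1 < m → dist (z i) (z (i + 2)) = 2 * σ := by
    intro i hi
    rw [hzz i (i + 2) (by omega) (by omega)]
    have : |(i : ℝ) - ((i + 2 : ℕ) : ℝ)| = 2 := by
      push_cast
      rw [show (i : ℝ) - (i + 2) = -2 by ring, abs_neg]
      norm_num
    rw [this]
  obtain ⟨r, hr⟩ : ∃ r : ℕ → ℝ, ∀ i, r i = dist x (z i) := ⟨_, fun _ => rfl⟩
  have hrt : ∀ i ≤ m, t ≤ r i := by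
    intro i hi
    rw [hr, hz]
    exact h _ (hI i hi)
  obtain ⟨β, hβ⟩ : ∃ β : ℕ → ℝ, ∀ i, β i =
    arccos ((r i ^ 2 + σ ^ 2 - r (i + 1) ^ 2) / (2 * r i * σ)) := ⟨_, fun _ => rfl⟩
  obtain ⟨γ, hγ⟩ : ∃ γ : ℕ → ℝ, ∀ i, γ i =
    arccos ((r (i + 1) ^ 2 + σ ^ 2 - r i ^ 2) / (2 * r (i + 1) * σ)) := ⟨_, fun _ => rfl⟩
  have hstep : ∀ i < m, dist (rad x t (z i)) (rad x t (z (i + 1))) ≤ t * (π - β i - γ i) := by
    intro i hi
    have hti := hrt i hi.le
    have htj := hrt (i + 1) hi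
    have hri : 0 < r i := lt_of_lt_of_le ht hti
    have hrj : 0 < r (i + 1) := lt_of_lt_of_le ht htj
    have h1 : |r (i + 1) - r i| ≤ σ := by
      have h0 := abs_dist_sub_le (z (i + 1)) (z i) x
      rw [dist_comm _ x, dist_comm _ x, dist_comm (z (i + 1)) (z i), hz1 i hi, ← hr, ← hr] at h0
      exact h0
    have h2 : σ ≤ r i + r (i + 1) := by
      have h0 := dist_triangle (z i) x (z (i + 1))
      rw [dist_comm _ x, hz1 i hi, ← hr, ← hr] at h0
      exact h0
    obtain ⟨h3, h4⟩ := angle_defect hri hrj hσ0 h1 h2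
    rw [← hβ, ← hγ] at h3 h4
    have h5 := rad_comp (x := x) (u := z i) (v := z (i + 1)) ht (by rw [← hr]; exact hti)
      (by rw [← hr]; exact htj)
    rw [← hr, ← hr, hz1 i hi] at h5
    have h6 : dist (rad x t (z i)) (rad x t (z (i + 1))) ^ 2 ≤ (t * (π - β i - γ i)) ^ 2 := by
      rw [mul_pow]
      exact h5.trans (mul_le_mul_of_nonneg_left h4 (by positivity))
    exact abs_le_of_sq_le_sq' h6 (by positivity) |>.2
  have hcon : ∀ i, i + 1 < m → π ≤ γ i + β (i + 1) := by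
    intro i hi
    have htj := hrt (i + 1) hi.le
    have hrj : 0 < r (i + 1) := lt_of_lt_of_le ht htj
    rw [hβ, hγ]
    apply angle_sum_ge hrj hσ0
    have h1 := IsCAT0.cn x (z i) (z (i + 2)) (z (i + 1))
      (by rw [hz1 i (by omega), hz2 i hi]; ring)
      (by rw [hz1 (i + 1) hi, hz2 i hi]; ring)
    rw [← hr, ← hr, ← hr, hz2 i hi] at h1
    nlinarith [h1]
  have hsum : ∀ k, k < m → ∑ i ∈ Finset.range (k + 1), (π - β i - γ i) ≤ π - γ k := by
    intro k
    induction k with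
    | zero =>
      intro _
      rw [Finset.sum_range_one, hβ 0]
      have := arccos_nonneg ((r 0 ^ 2 + σ ^ 2 - r (0 + 1) ^ 2) / (2 * r 0 * σ))
      linarith
    | succ k ih =>
      intro hk
      rw [Finset.sum_range_succ]
      have h1 := ih (by omega)
      have h2 := hcon k hk
      linarith
  have hfin : ∑ i ∈ Finset.range m, (π - β i - γ i) ≤ π := by
    obtain ⟨k, rfl⟩ : ∃ k, m = k + 1 := ⟨m - 1, by omega⟩
    have h1 := hsum k (by omega)
    have h2 : 0 ≤ γ k := by rw [hγ]; exact arccos_nonneg _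
    linarith
  calc ∑ i ∈ Finset.range m, dist (rad x t (pt u v (i / m)))
          (rad x t (pt u v ((i + 1 : ℕ) / m)))
      ≤ ∑ i ∈ Finset.range m, t * (π - β i - γ i) := by
        apply Finset.sum_le_sum
        intro i hi
        rw [← hz, ← hz]
        exact hstep i (Finset.mem_range.mp hi)
    _ = t * ∑ i ∈ Finset.range m, (π - β i - γ i) := by rw [Finset.mul_sum]
    _ ≤ t * π := mul_le_mul_of_nonneg_left hfin ht.le
    _ = π * t := mul_comm _ _

theorem radial_chain {x u v : X} {t : ℝ} (ht : 0 < t)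
    (h : ∀ a ∈ Icc (0 : ℝ) 1, t ≤ dist x (pt u v a)) :
    ∃ n : ℕ, (n : ℝ) ≤ 2 * (π * t) + 1 ∧ ∃ w : ℕ → X, w 0 = rad x t u ∧ w n = rad x t v ∧
      (∀ i < n, dist (w i) (w (i + 1)) ≤ 1) ∧ ∀ i ≤ n, dist x (w i) = t := by
  have hu : t ≤ dist x u := by
    have := h 0 zero_mem_I
    rwa [pt_zero] at this
  rcases eq_or_ne u v with rfl | huv
  · refine ⟨0, by push_cast; positivity, fun _ => rad x t u, rfl, rfl, ?_, ?_⟩
    · intro i hi; omega
    · intro i _; exact dist_rad ht.le hu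
  · obtain ⟨m, hm⟩ := exists_nat_gt (2 * dist u v)
    have hD : 0 < dist u v := dist_pos.mpr huv
    have hm0 : (0 : ℝ) < m := by linarith
    have hm1 : 0 < m := by exact_mod_cast hm0
    have hI : ∀ i ≤ m, ((i : ℝ) / m) ∈ Icc (0 : ℝ) 1 := by
      intro i hi
      refine ⟨by positivity, ?_⟩
      rw [div_le_one hm0]
      exact_mod_cast hi
    have h1 := radial_length ht h huv hm1
    have h2 : ∀ i < m, dist (rad x t (pt u v ((i : ℕ) / m)))
        (rad x t (pt u v ((i + 1 : ℕ) / m))) ≤ 1 / 2 := by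
      intro i hi
      refine (rad_lip ht (h _ (hI i hi.le)) (h _ (hI (i + 1) hi))).trans ?_
      rw [dist_pt_pt u v (hI i hi.le) (hI (i + 1) hi)]
      have : |(i : ℝ) / m - ((i + 1 : ℕ) : ℝ) / m| = 1 / m := by
        rw [← sub_div]
        push_cast
        rw [show (i : ℝ) - (i + 1) = -1 by ring, abs_div, abs_neg, abs_one, abs_of_pos hm0]
      rw [this, one_div, inv_mul_le_iff₀ hm0]
      linarith
    obtain ⟨n, hn, w, w0, wn, hw1, hw2⟩ := subsample
      (z := fun i : ℕ => rad x t (pt u v ((i : ℝ) / m))) h2 h1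
    refine ⟨n, hn, w, ?_, ?_, hw1, ?_⟩
    · rw [w0]; simp
    · rw [wn]
      have : (m : ℝ) / m = 1 := div_self hm0.ne'
      simp only [this, pt_one]
    · intro i hi
      obtain ⟨j, hj, e⟩ := hw2 i hi
      rw [e]
      exact dist_rad ht.le (h _ (hI j hj))

end Pool.Agent.H25.Bet
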