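import Pool.Agent.H25.Bet.Rad

/-!
# Gates give rank-one isometries

JOB BT-6. `Gate.symm`: `pt_comm`. `gate_pow`: induction on `n`, `g^1` is trivial (`T ≤ dist x (g•x)`
since `4T^2+2T+1 ≥ T`; the number is `0`). Step: apply the gate to `u = g⁻¹•x`, `v = g^(n+1)•x`
(distances: `dist x (g⁻¹•x) = dist x (g•x)`): there is `z = pt u v s` with `dist x z < T`. Then
`g•z` lies on `[x, g^(n+2)•x]` (`map_pt`, `g•u = x`), `dist (g•x) (g•z) < T`, so
`dist x (g•z) ≥ dist x (g•x) - T ≥ 4T^2+T+1 ≥ T`, and by `rad_pt`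
`rad x T (g^(n+2)•x) = rad x T (g•z)`; `rad_near` gives
`dist (rad x T (g•x)) (rad x T (g•z)) * dist x (g•x) ≤ 2*T*T`, so this distance is `≤ 1/2`.
Moreover `dist x (g^(n+2)•x) = dist x (g•z) + dist (g•z) (g^(n+2)•x)`
`≥ (dist x (g•x) - T) + (dist x (g^(n+1)•x) - T) ≥ 1 + n`.
`rankOne_of_gate`: `g^n ≠ 1` for `n > 0` as `dist x (g^(n)•x) ≥ T > 0`; `exists_axis hcoc` gives an
axis `c`, `g•c t = c (t+l)`, `l > 0`. If `c` bounds a flat half-plane `F`, take `s = T + 1 + dist x
(c 0)`, and for large `n` the points `u = F (-(n+1) l) s`, `v = F ((n+1) l) s`. As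
`dist (F t s) (c t) = s` and `c (-(n+1) l) = g^(-(n+1))•c 0`, `dist u (g⁻¹^(n+1)•x) ≤ s + dist x
(c 0)`, similarly for `v`. By `gate_pow` for `g` and for `g⁻¹` (use `Gate.symm`) and `rad_near`
(`dist x (g^(n+1)•x) ≥ n` large) the points `u, v` satisfy the hypotheses of the gate, so some point
`pt u v a` has distance `< T` from `x`. But `pt u v a = F ((2a-1)(n+1)l) s` (`eq_pt`, distances in
`F`), which has distance at least `s` from `F 0 0 = c 0`, hence at least `s - dist x (c 0) > T`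
from `x`: contradiction.
-/

open Set Metric

namespace Pool.Agent.H25.Bet

open Pool.Agent.H29

/-- All segments `[u,v]` with `u` in the direction of `a` and `v` in the direction of `b` (seen from
`x`, at radius `T`) meet the ball of radius `T` around `x`. -/
def Gate {X : Type*} [MetricSpace X] [IsCAT0 X] (T : ℝ) (x a b : X) : Prop :=
  ∀ u v : X, T ≤ dist x u → T ≤ dist x v → dist (rad x T u) (rad x T a) ≤ 1 →
    dist (rad x T v) (rad x T b) ≤ 1 → ∃ s ∈ Icc (0 : ℝ) 1, dist x (pt u v s) < T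

lemma Gate.symm {X : Type*} [MetricSpace X] [IsCAT0 X] {T : ℝ} {x a b : X} (h : Gate T x a b) :
    Gate T x b a := by
  intro u v hu hv hua hvb
  obtain ⟨s, hs, hd⟩ := h v u hv hu hvb hua
  refine ⟨1 - s, symm_mem_I hs, ?_⟩
  rw [← pt_comm v u hs]
  exact hd

variable {G X : Type*} [Group G] [MetricSpace X] [IsCAT0 X] [MulAction G X] [IsIsometricSMul G X]

omit [IsCAT0 X] in
lemma dist_inv_smul (x : X) (g : G) : dist x (g⁻¹ • x) = dist x (g • x) := by
  rw [← dist_smul g x (g⁻¹ • x), smul_inv_smul, dist_comm]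

/-- the powers of an element with a gate stay near its direction -/
lemma gate_pow {T : ℝ} (hT : 1 ≤ T) {x : X} {g : G} (hL : 4 * T ^ 2 + 2 * T + 1 ≤ dist x (g • x))
    (hg : Gate T x (g⁻¹ • x) (g • x)) (n : ℕ) :
    T ≤ dist x (g ^ (n + 1) • x) ∧ (n : ℝ) ≤ dist x (g ^ (n + 1) • x) ∧
      dist (rad x T (g ^ (n + 1) • x)) (rad x T (g • x)) ≤ 1 / 2 := by
  have hTL : T ≤ dist x (g • x) := by nlinarith
  have hT0 : 0 ≤ T := by linarith
  induction n with
  | zero =>
    simp only [zero_add, pow_one, Nat.cast_zero, dist_self]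
    exact ⟨hTL, dist_nonneg, by norm_num⟩
  | succ n ih =>
    obtain ⟨ih1, ih2, ih3⟩ := ih
    obtain ⟨s, hs, hz⟩ := hg (g⁻¹ • x) (g ^ (n + 1) • x) (by rw [dist_inv_smul]; exact hTL) ih1
      (by rw [dist_self]; norm_num) (by linarith)
    set z := pt (g⁻¹ • x) (g ^ (n + 1) • x) s with hzdef
    have e1 : g • z = pt x (g ^ (n + 1 + 1) • x) s := by
      rw [hzdef, map_pt (isometry_smul X g) _ _ hs, smul_inv_smul, smul_smul, ← pow_succ']
    have d1 : dist (g • x) (g • z) < T := by rw [dist_smul]; exact hz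
    have d2 : dist x (g • x) ≤ dist x (g • z) + dist (g • z) (g • x) := dist_triangle _ _ _
    rw [dist_comm (g • z)] at d2
    have d3 : T ≤ dist x (g • z) := by nlinarith
    have e2 : rad x T (g • z) = rad x T (g ^ (n + 1 + 1) • x) := by
      rw [e1]
      apply rad_pt hs hT0
      rw [← e1]; exact d3
    have d4 := rad_near hT0 hTL d3
    have d5 : dist (g • z) (g ^ (n + 1 + 1) • x) = dist z (g ^ (n + 1) • x) := by
      rw [pow_succ', mul_smul, dist_smul]
    have d6 : dist x (g ^ (n + 1) • x) ≤ dist x z + dist z (g ^ (n + 1) • x) :=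
      dist_triangle _ _ _
    have d7 : dist x (g • z) + dist (g • z) (g ^ (n + 1 + 1) • x) =
        dist x (g ^ (n + 1 + 1) • x) := by
      rw [e1, dist_left_pt _ _ hs, dist_pt_right _ _ hs]; ring
    have d8 : 0 ≤ dist (g • z) (g ^ (n + 1 + 1) • x) := dist_nonneg
    refine ⟨by linarith, ?_, ?_⟩
    · push_cast
      nlinarith
    · rw [← e2, dist_comm]
      by_contra hcon
      push Not at hcon
      have h1 : 2 * T * dist (g • x) (g • z) ≤ 2 * T * T :=
        mul_le_mul_of_nonneg_left d1.le (by linarith)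
      have h2 : 1 / 2 * dist x (g • x) ≤
          dist (rad x T (g • x)) (rad x T (g • z)) * dist x (g • x) :=
        mul_le_mul_of_nonneg_right hcon.le dist_nonneg
      nlinarith

/-- a point moved by `g^(n+1)` along the axis, displaced by `s`, is seen from `x` near `g • x` -/
lemma gate_near {T : ℝ} (hT : 1 ≤ T) {x : X} {g : G} (hL : 4 * T ^ 2 + 2 * T + 1 ≤ dist x (g • x))
    (hg : Gate T x (g⁻¹ • x) (g • x)) {R : ℝ} {n : ℕ} (hn : T + R ≤ n)
    (hn' : 4 * T * R ≤ n) {v : X} (hv : dist v (g ^ (n + 1) • x) ≤ R) :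
    T ≤ dist x v ∧ dist (rad x T v) (rad x T (g • x)) ≤ 1 := by
  obtain ⟨h1, h2, h3⟩ := gate_pow hT hL hg n
  have hT0 : 0 ≤ T := by linarith
  have h4 : dist x (g ^ (n + 1) • x) ≤ dist x v + dist v (g ^ (n + 1) • x) := dist_triangle _ _ _
  have h5 : T ≤ dist x v := by linarith
  refine ⟨h5, ?_⟩
  have h6 := rad_near hT0 h1 h5
  rw [dist_comm (g ^ (n + 1) • x) v] at h6
  have h7 : 2 * T * dist v (g ^ (n + 1) • x) ≤ 2 * T * R :=
    mul_le_mul_of_nonneg_left hv (by linarith)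
  have h8 : dist (rad x T (g ^ (n + 1) • x)) (rad x T v) ≤ 1 / 2 := by
    by_contra hcon
    push Not at hcon
    have hpos : 0 < dist x (g ^ (n + 1) • x) := by linarith
    have h9 : 1 / 2 * dist x (g ^ (n + 1) • x) <
        dist (rad x T (g ^ (n + 1) • x)) (rad x T v) * dist x (g ^ (n + 1) • x) :=
      mul_lt_mul_of_pos_right hcon hpos
    linarith
  have h10 := dist_triangle (rad x T v) (rad x T (g ^ (n + 1) • x)) (rad x T (g • x))
  rw [dist_comm (rad x T v) (rad x T (g ^ (n + 1) • x))] at h10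
  linarith

theorem rankOne_of_gate [ProperSpace X] [ProperlyDiscontinuousSMul G X] (hcoc : Cocompact G X)
    {T : ℝ} (hT : 1 ≤ T) {x : X} {g : G} (hL : 4 * T ^ 2 + 2 * T + 1 ≤ dist x (g • x))
    (hg : Gate T x (g⁻¹ • x) (g • x)) : IsRankOne (X := X) g := by
  have : Nonempty X := ⟨x⟩
  have hL' : 4 * T ^ 2 + 2 * T + 1 ≤ dist x (g⁻¹ • x) := by rw [dist_inv_smul]; exact hL
  have hg' : Gate T x ((g⁻¹)⁻¹ • x) (g⁻¹ • x) := by rw [inv_inv]; exact hg.symm
  have hinf : ∀ n : ℕ, 0 < n → g ^ n ≠ 1 := by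
    intro n hn h
    obtain ⟨m, rfl⟩ : ∃ m, n = m + 1 := ⟨n - 1, by omega⟩
    have h1 := (gate_pow hT hL hg m).1
    rw [h, one_smul, dist_self] at h1
    linarith
  obtain ⟨c, hc, l, hl, hcl⟩ := exists_axis hcoc hinf
  refine ⟨c, hc, ⟨l, hl.ne', hcl⟩, ?_⟩
  rintro ⟨F, hF0, hF⟩
  have hcn : ∀ (n : ℕ) (t : ℝ), g ^ n • c t = c (t + n * l) := by
    intro n
    induction n with
    | zero => intro t; simp
    | succ n ih =>
      intro t
      rw [pow_succ, mul_smul, hcl, ih]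
      congr 1
      push_cast; ring
  set s := T + 1 + dist x (c 0) with hs
  have hs0 : 0 ≤ s := by
    have : 0 ≤ dist x (c 0) := dist_nonneg
    linarith
  have hFd : ∀ t, dist (F t s) (c t) = s := by
    intro t
    have h1 := hF t s t 0 hs0 le_rfl
    rw [hF0] at h1
    have h2 : dist (F t s) (c t) ^ 2 = s ^ 2 := by rw [h1]; ring
    exact (sq_eq_sq₀ dist_nonneg hs0).mp h2
  set R := s + dist x (c 0) with hR
  obtain ⟨n, hn⟩ := exists_nat_ge (max (T + R) (4 * T * R))
  have hn1 := (le_max_left _ _).trans hn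
  have hn2 := (le_max_right _ _).trans hn
  set w : ℝ := ((n + 1 : ℕ) : ℝ) * l with hw
  have hw0 : 0 < w := by rw [hw]; positivity
  have dv : dist (F w s) (g ^ (n + 1) • x) ≤ R := by
    have h1 := dist_triangle (F w s) (c w) (g ^ (n + 1) • x)
    have h2 : c w = g ^ (n + 1) • c 0 := by rw [hcn, zero_add]
    have h3 : dist (c w) (g ^ (n + 1) • x) = dist x (c 0) := by
      rw [h2, dist_smul, dist_comm]
    rw [hFd, h3] at h1
    exact h1
  have du : dist (F (-w) s) ((g⁻¹) ^ (n + 1) • x) ≤ R := by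
    have h1 := dist_triangle (F (-w) s) (c (-w)) ((g⁻¹) ^ (n + 1) • x)
    have h2 : c 0 = g ^ (n + 1) • c (-w) := by
      rw [hcn]
      congr 1
      rw [hw]; ring
    have h3 : dist (c (-w)) ((g⁻¹) ^ (n + 1) • x) = dist x (c 0) := by
      rw [← dist_smul (g ^ (n + 1)) (c (-w)), ← h2, smul_smul, inv_pow, mul_inv_cancel, one_smul,
        dist_comm]
    rw [hFd, h3] at h1
    exact h1
  obtain ⟨u1, u2⟩ := gate_near hT hL' hg' hn1 hn2 du
  obtain ⟨v1, v2⟩ := gate_near hT hL hg hn1 hn2 dv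
  obtain ⟨a, ha, had⟩ := hg (F (-w) s) (F w s) u1 v1 u2 v2
  have e1 : F ((2 * a - 1) * w) s = pt (F (-w) s) (F w s) a := by
    have k1 : dist (F (-w) s) (F w s) = 2 * w := by
      have h1 := hF (-w) s w s hs0 hs0
      have h2 : dist (F (-w) s) (F w s) ^ 2 = (2 * w) ^ 2 := by rw [h1]; ring
      exact (sq_eq_sq₀ dist_nonneg (by linarith)).mp h2
    apply eq_pt ha
    · rw [k1]
      have h1 := hF (-w) s ((2 * a - 1) * w) s hs0 hs0
      have h2 : dist (F (-w) s) (F ((2 * a - 1) * w) s) ^ 2 = (a * (2 * w)) ^ 2 := by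
        rw [h1]; ring
      exact (sq_eq_sq₀ dist_nonneg (mul_nonneg ha.1 (by linarith))).mp h2
    · rw [k1]
      have h1 := hF ((2 * a - 1) * w) s w s hs0 hs0
      have h2 : dist (F ((2 * a - 1) * w) s) (F w s) ^ 2 = ((1 - a) * (2 * w)) ^ 2 := by
        rw [h1]; ring
      exact (sq_eq_sq₀ dist_nonneg (mul_nonneg (by linarith [ha.2]) (by linarith))).mp h2
  rw [← e1] at had
  have h1 := hF ((2 * a - 1) * w) s 0 0 hs0 le_rfl
  rw [hF0] at h1
  have h2 : s ≤ dist (F ((2 * a - 1) * w) s) (c 0) := by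
    apply le_of_sq_le_sq _ dist_nonneg
    rw [h1]
    nlinarith [sq_nonneg ((2 * a - 1) * w)]
  have h3 := dist_triangle (F ((2 * a - 1) * w) s) x (c 0)
  rw [dist_comm _ x] at h3
  linarith

end Pool.Agent.H25.Bet
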