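import Mathlib

/-!
# Harmonic almost coboundaries vanish

JOB BT-12. Proof of `harmonic_vanish`. `E a a = 0`, `E b a = - E a b` (`hadd`). For every `a : H`:
`∑ s ∈ S, ⟪E 1 s, a⟫ = 0`, and `⟪E 1 s, ρ s a⟫ = ⟪ρ s (E s⁻¹ 1), ρ s a⟫ = ⟪E s⁻¹ 1, a⟫ =
- ⟪E 1 s⁻¹, a⟫` (`hρ s s⁻¹ 1`), whose sum over the symmetric set `S` is `0` too. Hence, with `a` from
`hcob ε`, `∑ ‖E 1 s‖^2 = ∑ ⟪E 1 s, E 1 s - (a - ρ s a)⟫ ≤ ε ∑ ‖E 1 s‖` for all `ε > 0`.
-/

namespace Pool.Agent.H25.Bet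

/-- A cocycle, equivariant for an isometric linear action, in a real inner product
space, and harmonic with respect to a finite symmetric set, cannot be an almost coboundary unless it
vanishes on `S`. -/
lemma harmonic_vanish {G H : Type*} [Group G] [NormedAddCommGroup H] [InnerProductSpace ℝ H]
    {E : G → G → H} (hadd : ∀ a b c, E a b + E b c = E a c)
    (ρ : G → H →ₗ[ℝ] H) (hρ : ∀ s a b : G, ρ s (E a b) = E (s * a) (s * b))
    (hiso : ∀ (s : G) (v w : H), inner ℝ (ρ s v) (ρ s w) = (inner ℝ v w : ℝ))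
    (S : Finset G) (hsymm : ∀ s ∈ S, s⁻¹ ∈ S) (hharm : ∑ s ∈ S, E 1 s = 0)
    (hcob : ∀ ε > 0, ∃ a : H, ∀ s ∈ S, ‖E 1 s - (a - ρ s a)‖ ≤ ε) :
    ∀ s ∈ S, E 1 s = 0 := by
  have h0 : ∀ a, E a a = 0 := by
    intro a
    have := hadd a a a
    simpa using this
  have hneg : ∀ a b, E b a = - E a b := by
    intro a b
    have := hadd a b a
    rw [h0] at this
    exact (neg_eq_of_add_eq_zero_right this).symm
  have h1 : ∀ a : H, ∑ s ∈ S, (inner ℝ (E 1 s) a : ℝ) = 0 := by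
    intro a
    rw [← sum_inner, hharm, inner_zero_left]
  have h2 : ∀ (a : H) (s : G), (inner ℝ (E 1 s) (ρ s a) : ℝ) = - inner ℝ (E 1 s⁻¹) a := by
    intro a s
    have h3 : ρ s (E s⁻¹ 1) = E 1 s := by
      rw [hρ]
      simp
    rw [← h3, hiso, hneg 1 s⁻¹, inner_neg_left]
  have h3 : ∀ a : H, ∑ s ∈ S, (inner ℝ (E 1 s) (ρ s a) : ℝ) = 0 := by
    intro a
    simp only [h2]
    rw [Finset.sum_neg_distrib, neg_eq_zero, ← h1 a]
    refine Finset.sum_nbij' (fun s => s⁻¹) (fun s => s⁻¹) ?_ ?_ ?_ ?_ ?_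
    · exact fun s hs => hsymm s hs
    · exact fun s hs => hsymm s hs
    · intro s hs
      simp
    · intro s hs
      simp
    · intro s hs
      rfl
  have h4 : ∀ ε > 0, ∑ s ∈ S, ‖E 1 s‖ ^ 2 ≤ ε * ∑ s ∈ S, ‖E 1 s‖ := by
    intro ε hε
    obtain ⟨a, ha⟩ := hcob ε hε
    have h5 : ∑ s ∈ S, ‖E 1 s‖ ^ 2 = ∑ s ∈ S, (inner ℝ (E 1 s) (E 1 s - (a - ρ s a)) : ℝ) := by
      simp only [inner_sub_right, real_inner_self_eq_norm_sq]
      rw [Finset.sum_sub_distrib, Finset.sum_sub_distrib, h1, h3]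
      ring
    rw [h5, Finset.mul_sum]
    refine Finset.sum_le_sum fun s hs => ?_
    refine (real_inner_le_norm _ _).trans ?_
    rw [mul_comm ε]
    exact mul_le_mul_of_nonneg_left (ha s hs) (norm_nonneg _)
  have hM : 0 ≤ ∑ s ∈ S, ‖E 1 s‖ := Finset.sum_nonneg fun s _ => norm_nonneg _
  have h6 : ∑ s ∈ S, ‖E 1 s‖ ^ 2 ≤ 0 := by
    refine le_of_forall_pos_le_add fun δ hδ => ?_
    have h7 := h4 (δ / (∑ s ∈ S, ‖E 1 s‖ + 1)) (by positivity)
    refine h7.trans ?_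
    rw [zero_add, div_mul_eq_mul_div, div_le_iff₀ (by positivity)]
    nlinarith
  intro s hs
  have h8 : ∑ s ∈ S, ‖E 1 s‖ ^ 2 = 0 := le_antisymm h6 (Finset.sum_nonneg fun s _ => by positivity)
  have h9 := (Finset.sum_eq_zero_iff_of_nonneg (fun s _ => by positivity)).1 h8 s hs
  simpa using h9

end Pool.Agent.H25.Bet
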