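import Mathlib

/-!
# Translations of square summable functions on the edges

JOB BT-13. `transl`: the linear map `(transl s w) (g, t) = w (s⁻¹ g, t)` of `ℓ²(G × S)`.
-/

open scoped ENNReal

namespace Pool.Agent.H25.Bet

/-- square summable functions on the edges of the Cayley graph -/
abbrev EdgeSpace (G : Type*) (S : Finset G) : Type _ := lp (fun _ : G × S => ℝ) 2

variable {G : Type*} [Group G] {S : Finset G}

/-- left translation of the edges -/
private def eqv (S : Finset G) (s : G) : G × S ≃ G × S :=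
  (Equiv.mulLeft s⁻¹).prodCongr (Equiv.refl S)

private lemma eqv_apply (s g : G) (t : S) : eqv S s (g, t) = (s⁻¹ * g, t) := rfl

private lemma memcomp (s : G) (w : EdgeSpace G S) :
    Memℓp (fun p : G × S => w (eqv S s p)) 2 := by
  have h := lp.memℓp w
  rw [memℓp_gen_iff (by norm_num)] at h ⊢
  exact (Equiv.summable_iff (eqv S s)).2 h

private noncomputable def transl (s : G) : EdgeSpace G S →ₗ[ℝ] EdgeSpace G S where
  toFun w := ⟨fun p => w (eqv S s p), memcomp s w⟩
  map_add' v w := by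
    ext p
    rfl
  map_smul' c w := by
    ext p
    rfl

/-- translation of edge functions -/
theorem exists_transl : ∃ L : G → EdgeSpace G S →ₗ[ℝ] EdgeSpace G S,
    (∀ (s : G) (w : EdgeSpace G S) (g : G) (t : S), L s w (g, t) = w (s⁻¹ * g, t)) ∧
    ∀ (s : G) (v w : EdgeSpace G S), inner ℝ (L s v) (L s w) = (inner ℝ v w : ℝ) := by
  refine ⟨transl, fun s w g t => rfl, fun s v w => ?_⟩
  rw [lp.inner_eq_tsum, lp.inner_eq_tsum]
  exact Equiv.tsum_eq (eqv S s) (fun p => (inner ℝ (v p) (w p) : ℝ))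

/-- orthonormality of the basis vectors -/
theorem norm_sum_single [DecidableEq G] (s : S) (A : Finset G) (θ : G → ℝ) :
    ‖∑ g ∈ A, θ g • (lp.single 2 (g, s) (1 : ℝ) : EdgeSpace G S)‖ =
      Real.sqrt (∑ g ∈ A, θ g ^ 2) := by
  have h1 : ∀ g : G, θ g • (lp.single 2 (g, s) (1 : ℝ) : EdgeSpace G S) =
      lp.single 2 (g, s) (θ g) := by
    intro g
    rw [← lp.single_smul]
    simp
  have h2 : ∀ g h : G, (inner ℝ (lp.single 2 (g, s) (θ g) : EdgeSpace G S)
      (lp.single 2 (h, s) (θ h) : EdgeSpace G S) : ℝ) = if g = h then θ g ^ 2 else 0 := by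
    intro g h
    rw [lp.inner_single_left]
    by_cases hgh : g = h
    · subst hgh
      simp [pow_two]
    · have : (g, s) ≠ (h, s) := fun e => hgh (Prod.ext_iff.1 e).1
      simp [lp.single_apply_ne, this, hgh]
  have h3 : ‖∑ g ∈ A, θ g • (lp.single 2 (g, s) (1 : ℝ) : EdgeSpace G S)‖ ^ 2 =
      ∑ g ∈ A, θ g ^ 2 := by
    rw [← real_inner_self_eq_norm_sq]
    simp only [h1]
    rw [sum_inner]
    refine Finset.sum_congr rfl fun g hg => ?_
    rw [inner_sum]
    simp only [h2]
    simp [hg]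
  rw [← h3, Real.sqrt_sq (norm_nonneg _)]

end Pool.Agent.H25.Bet
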