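import Pool.Agent.H25.Bet.Flow
import Pool.Agent.H25.Bet.HilbB

/-!
# The harmonic cocycle

The Hilbert space is the closure of the space of gradients of harmonic functions of finite energy in
`ℓ²(G × S)`, and `E(a,b)` is the vector representing the functional `f b - f a`.
-/

open Set

universe u

namespace Pool.Agent.H25.Bet

section

variable {G : Type u} [Group G] (S : Finset G)

/-- `f` is a harmonic potential of the edge function `w` -/
def IsPot (w : EdgeSpace G S) (f : G → ℝ) : Prop :=
  (∀ (g : G) (s : S), w (g, s) = f (g * s) - f g) ∧ ∀ g, ∑ s ∈ S, f (g * s) = S.card * f g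

/-- gradients of harmonic functions of finite energy -/
def gradSpace : Submodule ℝ (EdgeSpace G S) where
  carrier := {w | ∃ f : G → ℝ, IsPot S w f}
  add_mem' := by
    rintro w w' ⟨f, h1, h2⟩ ⟨f', h1', h2'⟩
    refine ⟨fun g => f g + f' g, ?_, ?_⟩
    · intro g s
      rw [lp.coeFn_add, Pi.add_apply, h1, h1']
      ring
    · intro g
      rw [Finset.sum_add_distrib, h2, h2']
      ring
  zero_mem' := by
    refine ⟨fun _ => 0, ?_, ?_⟩
    · intro g s
      rw [lp.coeFn_zero, Pi.zero_apply, sub_zero]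
    · intro g
      simp
  smul_mem' := by
    rintro c w ⟨f, h1, h2⟩
    refine ⟨fun g => c * f g, ?_, ?_⟩
    · intro g s
      rw [lp.coeFn_smul, Pi.smul_apply, h1, smul_eq_mul]
      ring
    · intro g
      rw [← Finset.mul_sum, h2]
      ring

/-- the Hilbert space -/
noncomputable def hspace : Submodule ℝ (EdgeSpace G S) := (gradSpace S).topologicalClosure

variable {S}

lemma hspace_ext {v v' : EdgeSpace G S} (hv : v ∈ hspace S) (hv' : v' ∈ hspace S)
    (h : ∀ w ∈ gradSpace S, inner ℝ v w = (inner ℝ v' w : ℝ)) : v = v' := by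
  have h1 : v - v' ∈ hspace S := Submodule.sub_mem _ hv hv'
  have h2 : v - v' ∈ (gradSpace S)ᗮ := by
    rw [Submodule.mem_orthogonal']
    intro w hw
    rw [inner_sub_left, h w hw, sub_self]
  rw [← Submodule.orthogonal_closure] at h2
  have h3 : (inner ℝ (v - v') (v - v') : ℝ) = 0 := h2 _ h1
  rw [inner_self_eq_zero] at h3
  exact sub_eq_zero.mp h3

instance : CompleteSpace (hspace S) :=
  (Submodule.isClosed_topologicalClosure (gradSpace S)).completeSpace_coe

/-- `v` represents the functional `f b - f a` -/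
def Rep (a b : G) (v : EdgeSpace G S) : Prop :=
  v ∈ hspace S ∧ ∀ w f, IsPot S w f → (inner ℝ v w : ℝ) = f b - f a

lemma Rep.unique {a b : G} {v v' : EdgeSpace G S} (h : Rep a b v) (h' : Rep a b v') : v = v' := by
  apply hspace_ext h.1 h'.1
  rintro w ⟨f, hf⟩
  rw [h.2 w f hf, h'.2 w f hf]

lemma Rep.add {a b c : G} {v v' : EdgeSpace G S} (h : Rep a b v) (h' : Rep b c v') :
    Rep a c (v + v') := by
  refine ⟨Submodule.add_mem _ h.1 h'.1, fun w f hf => ?_⟩
  rw [inner_add_left, h.2 w f hf, h'.2 w f hf]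
  ring

lemma Rep.neg {a b : G} {v : EdgeSpace G S} (h : Rep a b v) : Rep b a (-v) := by
  refine ⟨Submodule.neg_mem _ h.1, fun w f hf => ?_⟩
  rw [inner_neg_left, h.2 w f hf]
  ring

lemma rep_zero (a : G) : Rep a a (0 : EdgeSpace G S) := by
  refine ⟨Submodule.zero_mem _, fun w f hf => ?_⟩
  rw [inner_zero_left, sub_self]

open Classical in
/-- the projection of a basis vector -/
noncomputable def ev (g : G) (s : S) : EdgeSpace G S :=
  (hspace S).starProjection (lp.single 2 (g, s) (1 : ℝ))

lemma rep_ev (g : G) (s : S) : Rep g (g * s) (ev g s) := by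
  classical
  refine ⟨Submodule.starProjection_apply_mem _ _, fun w f hf => ?_⟩
  have hw : w ∈ hspace S := Submodule.le_topologicalClosure _ ⟨f, hf⟩
  have h1 : (inner ℝ (ev g s) w : ℝ) = inner ℝ (lp.single 2 (g, s) (1 : ℝ) : EdgeSpace G S) w := by
    rw [ev, Submodule.inner_starProjection_left_eq_right,
      Submodule.starProjection_eq_self_iff.mpr hw]
  rw [h1, lp.inner_single_left, hf.1]
  simp

lemma exists_rep (hS : Subgroup.closure (S : Set G) = ⊤) (γ : G) :
    ∀ a : G, ∃ v : EdgeSpace G S, Rep a (a * γ) v := by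
  have hγ : γ ∈ Subgroup.closure (S : Set G) := by rw [hS]; trivial
  induction hγ using Subgroup.closure_induction with
  | mem s hs => exact fun a => ⟨_, rep_ev a ⟨s, hs⟩⟩
  | one => exact fun a => ⟨0, by rw [mul_one]; exact rep_zero a⟩
  | mul x y _ _ hx hy =>
    intro a
    obtain ⟨v, hv⟩ := hx a
    obtain ⟨v', hv'⟩ := hy (a * x)
    refine ⟨v + v', ?_⟩
    rw [← mul_assoc]
    exact hv.add hv'
  | inv x _ hx =>
    intro a
    obtain ⟨v, hv⟩ := hx (a * x⁻¹)
    refine ⟨-v, ?_⟩
    rw [inv_mul_cancel_right] at hv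
    exact hv.neg

lemma bessel {E : G → G → EdgeSpace G S} (hE : ∀ a b, Rep a b (E a b))
    (hS : Subgroup.closure (S : Set G) = ⊤) (γ : G) :
    ∃ K : ℝ, 0 ≤ K ∧ ∀ (A : Finset G) (θ : G → ℝ),
    ‖∑ g ∈ A, θ g • E g (g * γ)‖ ≤ K * Real.sqrt (∑ g ∈ A, θ g ^ 2) := by
  classical
  have hγ : γ ∈ Subgroup.closure (S : Set G) := by rw [hS]; trivial
  induction hγ using Subgroup.closure_induction with
  | mem s hs =>
    refine ⟨1, zero_le_one, fun A θ => ?_⟩
    have h1 : ∑ g ∈ A, θ g • E g (g * s) = (hspace S).starProjection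
        (∑ g ∈ A, θ g • (lp.single 2 (g, ⟨s, hs⟩) (1 : ℝ) : EdgeSpace G S)) := by
      rw [map_sum]
      apply Finset.sum_congr rfl
      intro g _
      rw [map_smul]
      congr 1
      exact (hE g (g * s)).unique (rep_ev g ⟨s, hs⟩)
    rw [h1, one_mul, ← norm_sum_single ⟨s, hs⟩ A θ]
    exact Submodule.norm_starProjection_apply_le _ _
  | one =>
    refine ⟨0, le_refl _, fun A θ => ?_⟩
    have h1 : ∑ g ∈ A, θ g • E g (g * 1) = 0 := by
      apply Finset.sum_eq_zero
      intro g _
      rw [mul_one, (hE g g).unique (rep_zero g), smul_zero]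
    rw [h1, norm_zero, zero_mul]
  | mul x y _ _ hx hy =>
    obtain ⟨K1, hK1, h1⟩ := hx
    obtain ⟨K2, hK2, h2⟩ := hy
    refine ⟨K1 + K2, add_nonneg hK1 hK2, fun A θ => ?_⟩
    have e1 : ∑ g ∈ A, θ g • E g (g * (x * y)) = ∑ g ∈ A, θ g • E g (g * x) +
        ∑ g ∈ A.map (mulRightEmbedding x), θ (g * x⁻¹) • E g (g * y) := by
      rw [Finset.sum_map, ← Finset.sum_add_distrib]
      apply Finset.sum_congr rfl
      intro g _
      rw [mulRightEmbedding_apply, mul_inv_cancel_right, ← smul_add, ← mul_assoc]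
      congr 1
      exact (hE _ _).unique ((hE g (g * x)).add (hE (g * x) (g * x * y)))
    have e2 : ∑ g ∈ A.map (mulRightEmbedding x), θ (g * x⁻¹) ^ 2 = ∑ g ∈ A, θ g ^ 2 := by
      rw [Finset.sum_map]
      apply Finset.sum_congr rfl
      intro g _
      rw [mulRightEmbedding_apply, mul_inv_cancel_right]
    rw [e1]
    refine (norm_add_le _ _).trans ?_
    have h3 := h1 A θ
    have h4 := h2 (A.map (mulRightEmbedding x)) (fun g => θ (g * x⁻¹))
    rw [e2] at h4
    rw [add_mul]
    exact add_le_add h3 h4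
  | inv x _ hx =>
    obtain ⟨K, hK, h⟩ := hx
    refine ⟨K, hK, fun A θ => ?_⟩
    have e1 : ∑ g ∈ A, θ g • E g (g * x⁻¹) =
        ∑ g ∈ A.map (mulRightEmbedding x⁻¹), (-θ (g * x)) • E g (g * x) := by
      rw [Finset.sum_map]
      apply Finset.sum_congr rfl
      intro g _
      rw [mulRightEmbedding_apply, inv_mul_cancel_right, neg_smul, ← smul_neg]
      congr 1
      exact (hE _ _).unique (hE (g * x⁻¹) g).neg
    have e2 : ∑ g ∈ A.map (mulRightEmbedding x⁻¹), (-θ (g * x)) ^ 2 = ∑ g ∈ A, θ g ^ 2 := by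
      rw [Finset.sum_map]
      apply Finset.sum_congr rfl
      intro g _
      rw [mulRightEmbedding_apply, inv_mul_cancel_right, neg_sq]
    rw [e1, ← e2]
    exact h _ _

end

/-- From a nonconstant harmonic function of finite Dirichlet energy to a harmonic cocycle of a
unitary representation which does not vanish on `S`. -/
theorem exists_cocycle {G : Type u} [Group G] (S : Finset G)
    (hS : Subgroup.closure (S : Set G) = ⊤) (hsymm : ∀ s ∈ S, s⁻¹ ∈ S) (f : G → ℝ)
    (hharm : ∀ g, ∑ s ∈ S, f (g * s) = S.card * f g)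
    (hfin : Summable fun g => ∑ s ∈ S, (f (g * s) - f g) ^ 2) (hne : ∃ g h, f g ≠ f h) :
    ∃ (H : Type u) (_ : NormedAddCommGroup H) (_ : InnerProductSpace ℝ H) (E : G → G → H)
      (ρ : G → H →ₗ[ℝ] H), Flowy E ∧ (∀ s a b : G, ρ s (E a b) = E (s * a) (s * b)) ∧
      (∀ (s : G) (v w : H), inner ℝ (ρ s v) (ρ s w) = (inner ℝ v w : ℝ)) ∧
      ∑ s ∈ S, E 1 s = 0 ∧ ∃ s ∈ S, E 1 s ≠ 0 := by
  classical
  have hrep : ∀ a b : G, ∃ v : EdgeSpace G S, Rep a b v := by
    intro a b
    obtain ⟨v, hv⟩ := exists_rep hS (a⁻¹ * b) a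
    rw [mul_inv_cancel_left] at hv
    exact ⟨v, hv⟩
  choose E hE using hrep
  obtain ⟨L, hL1, hL2⟩ := exists_transl (G := G) (S := S)
  have hpot : ∀ (s : G) (w : EdgeSpace G S) (f : G → ℝ), IsPot S w f →
      IsPot S (L s w) (fun g => f (s⁻¹ * g)) := by
    intro s w f hf
    refine ⟨fun g t => ?_, fun g => ?_⟩
    · rw [hL1, hf.1, mul_assoc]
    · have := hf.2 (s⁻¹ * g)
      simp only [mul_assoc] at this
      exact this
  have hLn : ∀ (s : G) (v : EdgeSpace G S), ‖L s v‖ = ‖v‖ := by
    intro s v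
    have h1 := hL2 s v v
    rw [real_inner_self_eq_norm_sq, real_inner_self_eq_norm_sq] at h1
    exact (sq_eq_sq₀ (norm_nonneg _) (norm_nonneg _)).mp h1
  have hLc : ∀ s : G, Continuous (L s) := by
    intro s
    exact (AddMonoidHomClass.isometry_of_norm (L s) (hLn s)).continuous
  have hLK : ∀ (s : G) (v : EdgeSpace G S), v ∈ hspace S → L s v ∈ hspace S := by
    intro s v hv
    have h1 : v ∈ closure (gradSpace S : Set (EdgeSpace G S)) := hv
    have h2 := map_mem_closure (hLc s) h1 (t := (gradSpace S : Set (EdgeSpace G S)))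
      (fun w hw => by
        obtain ⟨f, hf⟩ := hw
        exact ⟨_, hpot s w f hf⟩)
    exact h2
  have hLL : ∀ (s : G) (w : EdgeSpace G S), L s (L s⁻¹ w) = w := by
    intro s w
    apply lp.ext
    funext p
    rw [hL1 s _ p.1 p.2, hL1 s⁻¹ _ _ p.2, inv_inv, mul_inv_cancel_left]
  have hequiv : ∀ s a b : G, L s (E a b) = E (s * a) (s * b) := by
    intro s a b
    refine Rep.unique ⟨hLK s _ (hE a b).1, fun w f hf => ?_⟩ (hE (s * a) (s * b))
    have h1 : (inner ℝ (L s (E a b)) w : ℝ) = inner ℝ (E a b) (L s⁻¹ w) := by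
      rw [← hL2 s (E a b) (L s⁻¹ w), hLL]
    rw [h1, (hE a b).2 _ _ (hpot s⁻¹ w f hf), inv_inv]
  refine ⟨EdgeSpace G S, inferInstance, inferInstance, E, L, ⟨?_, bessel hE hS⟩, hequiv, hL2,
    ?_, ?_⟩
  · intro a b c
    exact ((hE a b).add (hE b c)).unique (hE a c)
  · apply hspace_ext (S := S)
    · exact Submodule.sum_mem _ fun s _ => (hE 1 s).1
    · exact Submodule.zero_mem _
    · rintro w ⟨f, hf⟩
      rw [sum_inner, inner_zero_left]
      have h1 : ∀ s ∈ S, (inner ℝ (E 1 s) w : ℝ) = f s - f 1 := fun s _ => (hE 1 s).2 w f hf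
      rw [Finset.sum_congr rfl h1, Finset.sum_sub_distrib]
      have h2 := hf.2 1
      simp only [one_mul] at h2
      rw [h2]
      simp
  · by_contra hcon
    push Not at hcon
    have hmem : Memℓp (fun p : G × S => f (p.1 * p.2) - f p.1) 2 := by
      apply memℓp_gen
      have h2 : (2 : ENNReal).toReal = 2 := by norm_num
      rw [h2]
      have h3 : Summable (fun p : G × S => (f (p.1 * p.2) - f p.1) ^ 2) := by
        rw [summable_prod_of_nonneg (fun p => sq_nonneg _)]
        refine ⟨fun g => Summable.of_finite, ?_⟩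
        have h4 : (fun g : G => ∑' s : S, (f (g * s) - f g) ^ 2) =
            fun g => ∑ s ∈ S, (f (g * s) - f g) ^ 2 := by
          funext g
          rw [tsum_fintype]
          exact Finset.sum_coe_sort S (fun s => (f (g * s) - f g) ^ 2)
        show Summable (fun g : G => ∑' s : S, (f (g * s) - f g) ^ 2)
        rw [h4]
        exact hfin
      refine h3.congr fun p => ?_
      rw [Real.rpow_ofNat, Real.norm_eq_abs, sq_abs]
    have hpotf : IsPot S (⟨_, hmem⟩ : EdgeSpace G S) f := ⟨fun g s => rfl, hharm⟩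
    have hstep : ∀ (g : G), ∀ s ∈ S, f (g * s) = f g := by
      intro g s hs
      have h1 := (hE g (g * s)).2 _ f hpotf
      have h2 := hequiv g 1 s
      rw [hcon s hs, map_zero, mul_one] at h2
      rw [← h2, inner_zero_left] at h1
      linarith
    have hall : ∀ γ : G, ∀ g : G, f (g * γ) = f g := by
      intro γ
      have hγ : γ ∈ Subgroup.closure (S : Set G) := by rw [hS]; trivial
      induction hγ using Subgroup.closure_induction with
      | mem s hs => exact fun g => hstep g s hs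
      | one => exact fun g => by rw [mul_one]
      | mul x y _ _ hx hy => exact fun g => by rw [← mul_assoc, hy, hx]
      | inv x _ hx =>
        intro g
        have := hx (g * x⁻¹)
        rw [inv_mul_cancel_right] at this
        exact this.symm
    obtain ⟨g, h, hgh⟩ := hne
    apply hgh
    have := hall (g⁻¹ * h) g
    rw [mul_inv_cancel_left] at this
    exact this.symm

end Pool.Agent.H25.Bet
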