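import Pool.Agent.H25.Bet.Cob
import Pool.Agent.H25.Bet.HilbA
import Pool.Agent.H25.Bet.HilbC

open Set

namespace Pool.Agent.H25.Bet

open Pool.Agent.H29

theorem rankOne_of_harmonic {G : Type*} {X : Type*} [Group G] [MetricSpace X] [IsCAT0 X]
    [LocallyCompactSpace X] [Nonempty X] [MulAction G X] [IsIsometricSMul G X]
    [ProperlyDiscontinuousSMul G X] (hcoc : Cocompact G X)
    (S : Finset G) (hS : Subgroup.closure (S : Set G) = ⊤) (hsymm : ∀ s ∈ S, s⁻¹ ∈ S)
    (f : G → ℝ) (hharm : ∀ g, ∑ s ∈ S, f (g * s) = S.card * f g)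
    (hfin : Summable fun g => ∑ s ∈ S, (f (g * s) - f g) ^ 2) (hne : ∃ g h, f g ≠ f h) :
    ∃ g : G, IsRankOne (X := X) g := by
  have : ProperSpace X := hcoc.properSpace
  by_contra hno
  obtain ⟨H, _, _, E, ρ, hE, hρ, hiso, hh, s, hs, hsne⟩ :=
    exists_cocycle S hS hsymm f hharm hfin hne
  exact hsne (harmonic_vanish hE.add ρ hρ hiso S hsymm hh
    (fun ε hε => almost_coboundary hcoc hno hE ρ hρ S hε) s hs)

end Pool.Agent.H25.Bet
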