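import Pool.Agent.H29.Axis

/-!
# Points at a given distance on geodesic segments

`rad x t u` is the point at distance `t` from `x` on the segment `[x,u]` (`0 ≤ t ≤ d(x,u)`).

JOB BT-1. Proofs (all with the lemmas `pt_pt`, `dist_pt_pt_le`, `dist_pt_pt_left_le`, `cn_pt`,
`dist_pt_pt` of H29/Basic). `rad_pt`: `pt_pt` and `t/(a L) * a = t/L`, `L = dist x u` (separate
`a L = 0`, then `t = 0`). `rad_rad`: `rad_pt` with `a = t/L` (`dist_rad`). `rad_mono`: replace `u, v`
by `rad x t u`, `rad x t v` (`rad_rad`), both at distance `t` from `x`, so the fraction is the same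
number `s/t ≤ 1` and `dist_pt_pt_left_le` applies (`t = 0` is trivial).
`rad_near`: `a = t/dist x u`, `b = t/dist x v`: `dist (pt x u a) (pt x v a) ≤ a dist u v`,
`dist (pt x v a) (pt x v b) = |a-b| dist x v = t |dist x v - dist x u| / dist x u` if `a ≤ 1`
(`a ∈ [0,1]` holds by assumption). `rad_base`: the same with `dist_pt_pt_le`:
`dist (pt x u a) (pt y u a) ≤ (1-a) dist x y`, `|a-b| dist y u = t |dist y u - dist x u|/dist x u
≤ dist x y`. `rad_comp`: with `a = t/r`, `b = t/r'`, `r = dist x u`, `r' = dist x v`,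
`σ = dist u v`: `cn_pt v x u`: `dist v (pt x u a)^2 ≤ (1-a) r'^2 + a σ^2 - a(1-a) r^2`, and
`cn_pt (pt x u a) x v` with fraction `b`:
`dist^2 ≤ (1-b) a^2 r^2 + b dist (pt x u a) v^2 - b(1-b) r'^2`, together
`≤ a^2r^2 + b^2r'^2 - ab(r^2+r'^2-σ^2) = t^2(2rr'-r^2-r'^2+σ^2)/(rr')`.
`rad_lip`: `rad_comp`, `t^2 ≤ r r'`.
-/

open Set

namespace Pool.Agent.H25.Bet

open Pool.Agent.H29

section

variable {X : Type*} [MetricSpace X] [IsCAT0 X]

/-- the point at distance `t` from `x` on the segment `[x,u]` -/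
noncomputable def rad (x : X) (t : ℝ) (u : X) : X := pt x u (t / dist x u)

lemma rad_mem {x u : X} {t : ℝ} (h0 : 0 ≤ t) (h1 : t ≤ dist x u) :
    t / dist x u ∈ Icc (0 : ℝ) 1 :=
  ⟨div_nonneg h0 dist_nonneg, div_le_one_of_le₀ h1 dist_nonneg⟩

lemma div_mul_dist {x u : X} {t : ℝ} (h0 : 0 ≤ t) (h1 : t ≤ dist x u) :
    t / dist x u * dist x u = t := by
  rcases eq_or_lt_of_le (dist_nonneg (x := x) (y := u)) with h | h
  · rw [← h] at h1 ⊢
    have : t = 0 := le_antisymm h1 h0
    rw [this]; simp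
  · field_simp

lemma dist_rad {x u : X} {t : ℝ} (h0 : 0 ≤ t) (h1 : t ≤ dist x u) : dist x (rad x t u) = t := by
  rw [rad, dist_left_pt x u (rad_mem h0 h1), div_mul_dist h0 h1]

lemma dist_rad_right {x u : X} {t : ℝ} (h0 : 0 ≤ t) (h1 : t ≤ dist x u) :
    dist (rad x t u) u = dist x u - t := by
  rw [rad, dist_pt_right x u (rad_mem h0 h1), sub_mul, one_mul, div_mul_dist h0 h1]

/-- the radial points of a point of the segment `[x,u]` -/
lemma rad_pt {x u : X} {a t : ℝ} (ha : a ∈ Icc (0 : ℝ) 1) (h0 : 0 ≤ t)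
    (h1 : t ≤ dist x (pt x u a)) : rad x t (pt x u a) = rad x t u := by
  rw [rad, rad, pt_pt x u (rad_mem h0 h1) ha]
  congr 1
  rw [dist_left_pt x u ha] at h1 ⊢
  rcases eq_or_lt_of_le (mul_nonneg ha.1 (dist_nonneg (x := x) (y := u))) with h | h
  · rw [← h] at h1
    have ht : t = 0 := le_antisymm h1 h0
    rw [ht]; simp
  · have hne : a * dist x u ≠ 0 := ne_of_gt h
    have ha0 : a ≠ 0 := left_ne_zero_of_mul hne
    have hd0 : dist x u ≠ 0 := right_ne_zero_of_mul hne
    field_simp

lemma rad_rad {x u : X} {s t : ℝ} (h0 : 0 ≤ s) (h1 : s ≤ t) (h2 : t ≤ dist x u) :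
    rad x s (rad x t u) = rad x s u := by
  have h3 : s ≤ dist x (pt x u (t / dist x u)) := by
    have := dist_rad (le_trans h0 h1) h2
    rw [rad] at this
    rw [this]
    exact h1
  exact rad_pt (rad_mem (le_trans h0 h1) h2) h0 h3

/-- radial distances increase -/
lemma rad_mono {x u v : X} {s t : ℝ} (h0 : 0 ≤ s) (h1 : s ≤ t) (hu : t ≤ dist x u)
    (hv : t ≤ dist x v) : dist (rad x s u) (rad x s v) ≤ dist (rad x t u) (rad x t v) := by
  have ht : 0 ≤ t := le_trans h0 h1
  rw [← rad_rad h0 h1 hu, ← rad_rad h0 h1 hv]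
  have hu' := dist_rad ht hu
  have hv' := dist_rad ht hv
  generalize rad x t u = u' at hu' ⊢
  generalize rad x t v = v' at hv' ⊢
  rw [rad, rad, hu', hv']
  have hI : s / t ∈ Icc (0 : ℝ) 1 := ⟨div_nonneg h0 ht, div_le_one_of_le₀ h1 ht⟩
  refine (dist_pt_pt_left_le x u' v' hI).trans ?_
  exact mul_le_of_le_one_left dist_nonneg hI.2

/-- radial distances of near points -/
lemma rad_near {x u v : X} {t : ℝ} (h0 : 0 ≤ t) (hu : t ≤ dist x u) (hv : t ≤ dist x v) :
    dist (rad x t u) (rad x t v) * dist x u ≤ 2 * t * dist u v := by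
  have hb := rad_mem h0 hv
  have hbr := div_mul_dist h0 hv
  have ha := rad_mem h0 hu
  have har := div_mul_dist h0 hu
  rw [rad, rad]
  set a := t / dist x u with hadef
  set b := t / dist x v with hbdef
  have h1 := dist_triangle (pt x u a) (pt x v a) (pt x v b)
  have h2 := dist_pt_pt_left_le x u v ha
  have h3 := dist_pt_pt x v ha hb
  have h4 : |a - b| * dist x v * dist x u = t * |dist x v - dist x u| := by
    have e : (a - b) * dist x v * dist x u = t * (dist x v - dist x u) := by
      linear_combination (dist x v) * har - (dist x u) * hbr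
    calc |a - b| * dist x v * dist x u = |(a - b) * dist x v * dist x u| := by
          rw [abs_mul, abs_mul, abs_of_nonneg (dist_nonneg (x := x) (y := v)),
            abs_of_nonneg (dist_nonneg (x := x) (y := u))]
      _ = _ := by rw [e, abs_mul, abs_of_nonneg h0]
  have h5 : |dist x v - dist x u| ≤ dist u v := by
    rw [dist_comm x v, dist_comm x u, dist_comm u v]
    exact abs_dist_sub_le v u x
  have h6 : t * |dist x v - dist x u| ≤ t * dist u v := mul_le_mul_of_nonneg_left h5 h0
  have hr : 0 ≤ dist x u := dist_nonneg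
  have h7 : dist (pt x u a) (pt x v b) * dist x u ≤
      (a * dist u v + |a - b| * dist x v) * dist x u :=
    mul_le_mul_of_nonneg_right (by linarith) hr
  have h8 : (a * dist u v + |a - b| * dist x v) * dist x u =
      (a * dist x u) * dist u v + |a - b| * dist x v * dist x u := by ring
  rw [h8, har, h4] at h7
  linarith

/-- change of the base point -/
lemma rad_base {x y u : X} {t : ℝ} (h0 : 0 ≤ t) (hx : t ≤ dist x u) (hy : t ≤ dist y u) :
    dist (rad x t u) (rad y t u) ≤ 2 * dist x y := by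
  have ha := rad_mem h0 hx
  have har := div_mul_dist h0 hx
  have hb := rad_mem h0 hy
  have hbr := div_mul_dist h0 hy
  rw [rad, rad]
  set a := t / dist x u with hadef
  set b := t / dist y u with hbdef
  have h1 := dist_triangle (pt x u a) (pt y u a) (pt y u b)
  have h2 := dist_pt_pt_le x u y u ha
  rw [dist_self, mul_zero, add_zero] at h2
  have h3 := dist_pt_pt y u ha hb
  have h4 : |a - b| * dist y u = a * |dist y u - dist x u| := by
    have e : (a - b) * dist y u = a * (dist y u - dist x u) := by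
      linear_combination har - hbr
    calc |a - b| * dist y u = |(a - b) * dist y u| := by
          rw [abs_mul, abs_of_nonneg (dist_nonneg (x := y) (y := u))]
      _ = _ := by rw [e, abs_mul, abs_of_nonneg ha.1]
  have h5 : |dist y u - dist x u| ≤ dist x y := by
    rw [dist_comm x y]
    exact abs_dist_sub_le y x u
  have h6 : a * |dist y u - dist x u| ≤ a * dist x y := mul_le_mul_of_nonneg_left h5 ha.1
  have h7 : 0 ≤ dist x y := dist_nonneg
  linarith

/-- radial projection: the comparison inequality -/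
lemma rad_comp {x u v : X} {t : ℝ} (h0 : 0 < t) (hu : t ≤ dist x u) (hv : t ≤ dist x v) :
    dist (rad x t u) (rad x t v) ^ 2 ≤
      t ^ 2 * ((dist u v ^ 2 - (dist x v - dist x u) ^ 2) / (dist x u * dist x v)) := by
  have hr : 0 < dist x u := lt_of_lt_of_le h0 hu
  have hr' : 0 < dist x v := lt_of_lt_of_le h0 hv
  have ha := rad_mem h0.le hu
  have har := div_mul_dist h0.le hu
  have hb := rad_mem h0.le hv
  have hbr := div_mul_dist h0.le hv
  rw [rad, rad]
  set a := t / dist x u with hadef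
  set b := t / dist x v with hbdef
  have h1 := cn_pt v x u ha
  have h2 := cn_pt (pt x u a) x v hb
  rw [dist_comm (pt x u a) x, dist_left_pt x u ha, dist_comm (pt x u a) v] at h2
  rw [dist_comm v x, dist_comm v u] at h1
  have h3 := mul_le_mul_of_nonneg_left h1 hb.1
  have e1 : t ^ 2 * ((dist u v ^ 2 - (dist x v - dist x u) ^ 2) / (dist x u * dist x v)) =
      a * b * (dist u v ^ 2 - (dist x v - dist x u) ^ 2) := by
    rw [hadef, hbdef]
    field_simp
  rw [e1]
  set r := dist x u with hrdef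
  set r' := dist x v with hrdef'
  have e2 : a * b * (dist u v ^ 2 - (r' - r) ^ 2) =
      (a * r) ^ 2 + (b * r') ^ 2 - a * b * (r ^ 2 + r' ^ 2 - dist u v ^ 2)
        + (2 * ((a * r) * (b * r')) - (a * r) ^ 2 - (b * r') ^ 2) := by ring
  have e3 : 2 * ((a * r) * (b * r')) - (a * r) ^ 2 - (b * r') ^ 2 = 0 := by
    rw [har, hbr]; ring
  rw [e2, e3]
  nlinarith [h2, h3]

/-- radial projection is `1`-Lipschitz -/
lemma rad_lip {x u v : X} {t : ℝ} (h0 : 0 < t) (hu : t ≤ dist x u) (hv : t ≤ dist x v) :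
    dist (rad x t u) (rad x t v) ≤ dist u v := by
  have hr : 0 < dist x u := lt_of_lt_of_le h0 hu
  have hr' : 0 < dist x v := lt_of_lt_of_le h0 hv
  have h1 := rad_comp h0 hu hv
  have hrr : 0 < dist x u * dist x v := mul_pos hr hr'
  have h2 : t ^ 2 ≤ dist x u * dist x v := by
    rw [sq]
    exact mul_le_mul hu hv h0.le hr.le
  have h3 : t ^ 2 * ((dist u v ^ 2 - (dist x v - dist x u) ^ 2) / (dist x u * dist x v)) ≤
      dist u v ^ 2 := by
    rw [mul_div_assoc', div_le_iff₀ hrr]
    have h4 : t ^ 2 * (dist u v ^ 2 - (dist x v - dist x u) ^ 2) ≤ t ^ 2 * dist u v ^ 2 :=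
      mul_le_mul_of_nonneg_left (by nlinarith [sq_nonneg (dist x v - dist x u)]) (sq_nonneg t)
    have h5 : t ^ 2 * dist u v ^ 2 ≤ (dist x u * dist x v) * dist u v ^ 2 :=
      mul_le_mul_of_nonneg_right h2 (sq_nonneg _)
    linarith
  exact abs_le_of_sq_le_sq' (h1.trans h3) dist_nonneg |>.2

end

lemma rad_smul {G X : Type*} [Group G] [MetricSpace X] [IsCAT0 X] [MulAction G X]
    [IsIsometricSMul G X] (g : G) {x u : X} {t : ℝ} (h0 : 0 ≤ t) (h1 : t ≤ dist x u) :
    g • rad x t u = rad (g • x) t (g • u) := by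
  rw [rad, rad, dist_smul]
  exact map_pt (isometry_smul X g) x u (rad_mem h0 h1)

end Pool.Agent.H25.Bet
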